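import Pool.Agent.H173L.Large

/-!
# 4-homogeneous latin squares exist for all large orders
-/

set_option autoImplicit false

namespace Pool.Agent.H173L

/-- There is an `N₀` such that for every `n ≥ N₀` there is a 4-homogeneous latin square of
order `n`. -/
theorem all_large_has :
    ∃ N₀ : ℕ, ∀ n : ℕ, N₀ ≤ n → HasHomogeneous 4 n := by
  obtain ⟨N₀, hN₀⟩ := all_large
  exact ⟨N₀, fun n hn => has_of_G (hN₀ n hn)⟩

end Pool.Agent.H173L
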