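import Pool.Agent.H173L.Main

/-!
# Twists that keep a given subsquare
-/

set_option autoImplicit false

namespace Pool.Agent.H173L

open Finset
open scoped Classical

section
variable {X : Type} {L : X → X → X} {ι : Type} {w : ι → ℕ} {f : X → X → X → X → ι}

/-- the constants for a general labelling -/
noncomputable def gL (ℓ : X → ℕ) (L : X → X → X) (f : X → X → X → X → ι) (i0 : ι) (x y : X) : ℤ :=
  if ∃ x' y', Quad L x y x' y' ∧ f x y x' y' = i0 ∧ ℓ x < ℓ x' ∧ ℓ y < ℓ y' then 1 else 0

variable [Fintype X]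

theorem gL_eq (ℓ : X → ℕ) (S : Sys X L ι w f) {i0 : ι} {x y x' y' : X} (h : Quad L x y x' y')
    (hf : f x y x' y' = i0) :
    gL ℓ L f i0 x y = if ℓ x < ℓ x' ∧ ℓ y < ℓ y' then 1 else 0 := by
  unfold gL
  by_cases hl : ℓ x < ℓ x' ∧ ℓ y < ℓ y'
  · rw [if_pos hl, if_pos ⟨x', y', h, hf, hl.1, hl.2⟩]
  · rw [if_neg hl, if_neg]
    rintro ⟨x1, y1, h1, h2, h3, h4⟩
    have hx : x' = x1 := S.mt _ _ _ _ _ _ h h1 (hf.trans h2.symm)
    subst hx
    have hy : y' = y1 := h.col_unique S.lat h1
    subst hy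
    exact hl ⟨h3, h4⟩

theorem gL_ne {ℓ : X → ℕ} (hℓ : Function.Injective ℓ) (S : Sys X L ι w f) {i0 : ι}
    {x y x' y' : X} (h : Quad L x y x' y') (hf : f x y x' y' = i0) :
    (gL ℓ L f i0 x y + gL ℓ L f i0 x' y = 1 ∧ gL ℓ L f i0 x y' + gL ℓ L f i0 x' y' = 0) ∨
    (gL ℓ L f i0 x y + gL ℓ L f i0 x' y = 0 ∧ gL ℓ L f i0 x y' + gL ℓ L f i0 x' y' = 1) := by
  have hB : f x y' x' y = i0 := by rw [← S.s2 _ _ _ _ h, hf]
  have hC : f x' y x y' = i0 := by rw [S.s1 _ _ _ _ h.row, hB]
  have hD : f x' y' x y = i0 := by rw [← S.s1 _ _ _ _ h, hf]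
  rw [gL_eq ℓ S h hf, gL_eq ℓ S h.col hB, gL_eq ℓ S h.row hC, gL_eq ℓ S h.swap hD]
  have h1 : ℓ x ≠ ℓ x' := fun hh => h.1 (hℓ hh)
  have h2 : ℓ y ≠ ℓ y' := fun hh => h.2.1 (hℓ hh)
  rcases lt_or_gt_of_ne h1 with h1 | h1 <;> rcases lt_or_gt_of_ne h2 with h2 | h2 <;>
    simp [h1, h2, not_lt.2 h1.le, not_lt.2 h2.le]

/-- a subsquare -/
structure Sub {Y : Type} (C : Y → Y → Y) (L : X → X → X) (w : ι → ℕ)
    (f : X → X → X → X → ι) (s : Y → X) : Prop where
  inj : Function.Injective s
  eq : ∀ u v, L (s u) (s v) = s (C u v)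
  one : ∀ u v u' v', Quad L (s u) (s v) (s u') (s v') → w (f (s u) (s v) (s u') (s v')) = 1

theorem step_kill_sub {Y : Type} {C : Y → Y → Y} {s : Y → X} (S : Sys X L ι w f)
    (U : Sub C L w f s) (i0 : ι) (hw : w i0 = 0) (q : ℕ) [Fact q.Prime]
    (hq : 2 * Fintype.card X + 2 < q) :
    ∃ (L' : X × ZMod q → X × ZMod q → X × ZMod q)
      (f' : X × ZMod q → X × ZMod q → X × ZMod q → X × ZMod q → ι) (s' : Y → X × ZMod q),
      Sys (X × ZMod q) L' ι (Function.update w i0 1) f' ∧
      Sub C L' (Function.update w i0 1) f' s' := by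
  set ℓ : X → ℕ := fun x => if x ∈ Set.range s then lbl X x + Fintype.card X else lbl X x with hℓd
  have hℓ : Function.Injective ℓ := by
    intro x y hxy
    have h1 := lbl_le x
    have h2 := lbl_le y
    have h3 := lbl_pos x
    have h4 := lbl_pos y
    simp only [hℓd] at hxy
    split_ifs at hxy
    · exact lbl_inj X (by omega)
    · omega
    · omega
    · exact lbl_inj X hxy
  have hℓ2 : ∀ x x', x ∈ Set.range s → ℓ x < ℓ x' → x' ∈ Set.range s := by
    intro x x' hx hlt
    by_contra hx'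
    simp only [hℓd] at hlt
    rw [if_pos hx, if_neg hx'] at hlt
    have h1 := lbl_le x'
    have h3 := lbl_pos x
    omega
  have hS : Sys (X × ZMod q) (tw L (fun x y => ((bZ L f i0 x y : ℤ) : ZMod q))
      (fun x y => ((gL ℓ L f i0 x y : ℤ) : ZMod q))) ι (Function.update w i0 1)
      (fun a b a' b' => f a.1 b.1 a'.1 b'.1) := by
    refine sys_kill S i0 hw ?_ ?_ ?_ ?_ ?_
    · intro x y
      obtain ⟨h1, h2⟩ := bZ_ne S i0 x y
      exact (isUnit_iff_ne_zero).2 (cast_ne_zero h1 (lt_of_le_of_lt h2 (by omega)))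
    · have : ((2 : ℤ) : ZMod q) ≠ 0 := cast_ne_zero (by norm_num) (by rw [abs_of_pos] <;> omega)
      exact (isUnit_iff_ne_zero).2 (by simpa using this)
    · intro x y x' y' h hf
      have := bZ_zero S (i0 := i0) (x := x) (y := y) (x' := x') ⟨y', h, hf⟩
      have h2 := congrArg (fun z : ℤ => (z : ZMod q)) this
      simpa using h2
    · intro x y x' y' h hf
      have h1 := bZ_nonzero S h hf
      have h2 := (bZ_ne S i0 x y).2
      have h3 := (bZ_ne S i0 x' y).2
      have h4 : |bZ L f i0 x y + bZ L f i0 x' y| < q := by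
        refine lt_of_le_of_lt (abs_add_le _ _) ?_
        omega
      have h5 := cast_ne_zero h1 h4
      exact (isUnit_iff_ne_zero).2 (by simpa using h5)
    · intro x y x' y' h hf
      rcases gL_ne hℓ S h hf with ⟨h1, h2⟩ | ⟨h1, h2⟩
      · have h3 := congrArg (fun z : ℤ => (z : ZMod q)) h1
        have h4 := congrArg (fun z : ℤ => (z : ZMod q)) h2
        simp only [Int.cast_add, Int.cast_one, Int.cast_zero] at h3 h4
        rw [h3, h4]
        exact one_ne_zero
      · have h3 := congrArg (fun z : ℤ => (z : ZMod q)) h1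
        have h4 := congrArg (fun z : ℤ => (z : ZMod q)) h2
        simp only [Int.cast_add, Int.cast_one, Int.cast_zero] at h3 h4
        rw [h3, h4]
        exact zero_ne_one
  refine ⟨_, _, fun u => (s u, 0), hS, ?_⟩
  constructor
  · intro u v h
    exact U.inj (Prod.mk.inj h).1
  · intro u v
    simp only [tw, U.eq, mul_zero, add_zero, zero_add, Prod.mk.injEq, true_and]
    have : gL ℓ L f i0 (s u) (s v) = 0 := by
      unfold gL
      rw [if_neg]
      rintro ⟨x', y', h1, h2, h3, h4⟩
      obtain ⟨u', rfl⟩ := hℓ2 _ _ ⟨u, rfl⟩ h3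
      obtain ⟨v', rfl⟩ := hℓ2 _ _ ⟨v, rfl⟩ h4
      have h5 := U.one _ _ _ _ h1
      rw [h2, hw] at h5
      exact absurd h5 (by norm_num)
    rw [this]
    simp
  · intro u v u' v' h
    have hβ : ∀ x y, IsUnit (((bZ L f i0 x y : ℤ) : ZMod q)) := by
      intro x y
      obtain ⟨h1, h2⟩ := bZ_ne S i0 x y
      exact (isUnit_iff_ne_zero).2 (cast_ne_zero h1 (lt_of_le_of_lt h2 (by omega)))
    have h2 : IsUnit (2 : ZMod q) := by
      have : ((2 : ℤ) : ZMod q) ≠ 0 := cast_ne_zero (by norm_num) (by rw [abs_of_pos] <;> omega)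
      exact (isUnit_iff_ne_zero).2 (by simpa using this)
    have h3 := ((tw_quad' S.lat hβ h2 _ _ _ _).1 h).1
    have h4 := U.one _ _ _ _ h3
    simp only
    by_cases h5 : f (s u) (s v) (s u') (s v') = i0
    · rw [h5, Function.update_self]
    · rw [Function.update_of_ne h5]
      exact h4

theorem step_split_sub {Y : Type} {C : Y → Y → Y} {s : Y → X} (S : Sys X L ι w f)
    (U : Sub C L w f s) (i0 : ι) (hw2 : 2 ≤ w i0) (q : ℕ) [Fact q.Prime]
    (hq : 2 * Fintype.card X + 2 < q) (hw : w i0 ≤ q) :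
    ∃ (L' : X × ZMod q → X × ZMod q → X × ZMod q)
      (f' : X × ZMod q → X × ZMod q → X × ZMod q → X × ZMod q → ι ⊕ ZMod q)
      (v : ZMod q → ℕ) (s' : Y → X × ZMod q), (∀ g, v g ≤ 1) ∧
      Sys (X × ZMod q) L' (ι ⊕ ZMod q) (Sum.elim (Function.update w i0 1) v) f' ∧
      Sub C L' (Sum.elim (Function.update w i0 1) v) f' s' := by
  have hcard : w i0 ≤ (Finset.univ : Finset (ZMod q)).card := by
    rw [Finset.card_univ, ZMod.card]
    exact hw
  obtain ⟨W, _, hW⟩ := Finset.exists_subset_card_eq hcard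
  have hβ : ∀ x y, IsUnit (((bZ L f i0 x y : ℤ) : ZMod q)) := by
    intro x y
    obtain ⟨h1, h2⟩ := bZ_ne S i0 x y
    exact (isUnit_iff_ne_zero).2 (cast_ne_zero h1 (lt_of_le_of_lt h2 (by omega)))
  have h2 : IsUnit (2 : ZMod q) := by
    have : ((2 : ℤ) : ZMod q) ≠ 0 := cast_ne_zero (by norm_num) (by rw [abs_of_pos] <;> omega)
    exact (isUnit_iff_ne_zero).2 (by simpa using this)
  refine ⟨_, _, _, fun u => (s u, 0), ?_, sys_split S i0 (lbl_inj X)
    (β := fun x y => ((bZ L f i0 x y : ℤ) : ZMod q)) W hW hβ h2 ?_ ?_, ?_⟩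
  · intro g
    split_ifs <;> omega
  · intro x y x' y' h hf
    have := bZ_zero S (i0 := i0) (x := x) (y := y) (x' := x') ⟨y', h, hf⟩
    have h2 := congrArg (fun z : ℤ => (z : ZMod q)) this
    simpa using h2
  · intro x y x' y' h hf
    have h1 := bZ_nonzero S h hf
    have h2 := (bZ_ne S i0 x y).2
    have h3 := (bZ_ne S i0 x' y).2
    have h4 : |bZ L f i0 x y + bZ L f i0 x' y| < q := by
      refine lt_of_le_of_lt (abs_add_le _ _) ?_
      omega
    have h5 := cast_ne_zero h1 h4
    exact (isUnit_iff_ne_zero).2 (by simpa using h5)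
  · constructor
    · intro u v h
      exact U.inj (Prod.mk.inj h).1
    · intro u v
      simp only [tw, U.eq, mul_zero, add_zero]
    · intro u v u' v' h
      have h3 := ((tw_quad' S.lat hβ h2 _ _ _ _).1 h).1
      have h4 := U.one _ _ _ _ h3
      have h5 : f (s u) (s v) (s u') (s v') ≠ i0 := by
        intro h6
        rw [h6] at h4
        omega
      unfold splitCol
      rw [if_neg h5]
      simp only [Sum.elim_inl]
      rw [Function.update_of_ne h5]
      exact h4

end

/-- orders of 4-homogeneous latin squares with the subsquare `C` -/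
def GC {Y : Type} (C : Y → Y → Y) : Set ℕ := {n | ∃ (X : Type) (_ : Fintype X) (L : X → X → X)
  (s : Y → X), Fintype.card X = n ∧ IsHom4 X L ∧ Function.Injective s ∧
    ∀ u v, L (s u) (s v) = s (C u v)}

theorem sieve_step' {k K0 : ℕ} {T : Set ℕ} (hk : 0 < k) (hK : k ≤ K0)
    (h : ∀ q, q.Prime → K0 < q → Null (OddMul (k * q) \ T)) : Null (OddMul k \ T) := by
  apply null_of_approx
  intro ε hε
  obtain ⟨P, hP, hN⟩ := sieve K0 ε hε
  refine ⟨{n | ∃ q ∈ P, n ∈ OddMul (k * q) \ T}, {n | ∀ q ∈ P, ¬ q ∣ n},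
    null_biUnion P _ (fun q hq => h q (hP q hq).1 (hP q hq).2), ?_, hN⟩
  rintro n ⟨⟨M, hM, rfl⟩, hn⟩
  by_cases hq : ∃ q ∈ P, q ∣ k * M
  · left
    obtain ⟨q, hq, hd⟩ := hq
    have hqp := (hP q hq).1
    have hqk : ¬ q ∣ k := fun hh => absurd (Nat.le_of_dvd hk hh) (by have := (hP q hq).2; omega)
    obtain ⟨M', rfl⟩ := (hqp.dvd_mul.1 hd).resolve_left hqk
    refine ⟨q, hq, ⟨M', (Nat.odd_mul.1 hM).2, by ring⟩, hn⟩
  · right
    intro q hq' hd
    exact hq ⟨q, hq', hd⟩

theorem null_sub_zero {Y : Type} {C : Y → Y → Y} : ∀ (z : ℕ) (X : Type) [Fintype X]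
    (L : X → X → X) (ι : Type) [Fintype ι] (w : ι → ℕ) (f : X → X → X → X → ι) (s : Y → X),
    0 < Fintype.card X → Sys X L ι w f → Sub C L w f s →
    (∀ i, w i ≤ 1) → ((Finset.univ : Finset ι).filter (fun i => w i = 0)).card = z →
    Null (OddMul (Fintype.card X) \ GC C) := by
  intro z
  induction z with
  | zero =>
    intro X _ L ι _ w f s hX S U hw hz
    have hw1 : ∀ i, w i = 1 := by
      intro i
      have h1 := hw i
      rcases Nat.eq_zero_or_pos (w i) with h | h
      · rw [Finset.card_eq_zero] at hz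
        exact absurd (Finset.mem_filter.2 ⟨Finset.mem_univ i, h⟩) (by rw [hz]; simp)
      · omega
    refine null_empty.mono ?_
    rintro n ⟨⟨M, hM, rfl⟩, h2⟩
    have : NeZero M := ⟨by rintro rfl; exact absurd hM (by decide)⟩
    refine absurd ⟨X × ZMod M, inferInstance, _, fun u => (s u, 0), ?_,
      hom_mul (hom_of_sys S hw1) hM, ?_, ?_⟩ h2
    · rw [Fintype.card_prod, ZMod.card]
    · intro u v h
      exact U.inj (Prod.mk.inj h).1
    · intro u v
      simp only [tw, U.eq, mul_zero, add_zero]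
  | succ z ih =>
    intro X _ L ι _ w f s hX S U hw hz
    obtain ⟨i0, hi0⟩ : ∃ i, w i = 0 := by
      have : 0 < ((Finset.univ : Finset ι).filter (fun i => w i = 0)).card := by omega
      obtain ⟨i, hi⟩ := Finset.card_pos.1 this
      exact ⟨i, (Finset.mem_filter.1 hi).2⟩
    refine sieve_step' (K0 := 2 * Fintype.card X + 2) hX (by omega) fun q hq hK => ?_
    have : Fact q.Prime := ⟨hq⟩
    obtain ⟨L', f', s', S', U'⟩ := step_kill_sub S U i0 hi0 q hK
    have hc : Fintype.card (X × ZMod q) = Fintype.card X * q := by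
      rw [Fintype.card_prod, ZMod.card]
    rw [← hc]
    refine ih (X × ZMod q) L' ι _ f' s' ?_ S' U' ?_ ?_
    · rw [hc]
      exact Nat.mul_pos hX hq.pos
    · intro i
      by_cases hi : i = i0
      · subst hi
        rw [Function.update_self]
      · rw [Function.update_of_ne hi]
        exact hw i
    · have hmem : i0 ∈ (Finset.univ : Finset ι).filter (fun i => w i = 0) :=
        Finset.mem_filter.2 ⟨Finset.mem_univ _, hi0⟩
      have : (Finset.univ : Finset ι).filter (fun i => Function.update w i0 1 i = 0) =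
          ((Finset.univ : Finset ι).filter (fun i => w i = 0)).erase i0 := by
        ext i
        simp only [Finset.mem_filter, Finset.mem_univ, true_and, Finset.mem_erase]
        by_cases hi : i = i0
        · subst hi
          simp
        · rw [Function.update_of_ne hi]
          simp [hi]
      rw [this, Finset.card_erase_of_mem hmem, hz]
      rfl

theorem null_sub {Y : Type} {C : Y → Y → Y} : ∀ (h : ℕ) (X : Type) [Fintype X]
    (L : X → X → X) (ι : Type) [Fintype ι] (w : ι → ℕ) (f : X → X → X → X → ι) (s : Y → X),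
    0 < Fintype.card X → Sys X L ι w f → Sub C L w f s →
    ((Finset.univ : Finset ι).filter (fun i => 2 ≤ w i)).card = h →
    Null (OddMul (Fintype.card X) \ GC C) := by
  intro h
  induction h with
  | zero =>
    intro X _ L ι _ w f s hX S U hh
    refine null_sub_zero _ X L ι w f s hX S U ?_ rfl
    intro i
    by_contra hi
    rw [Finset.card_eq_zero] at hh
    exact absurd (Finset.mem_filter.2 ⟨Finset.mem_univ i, (by omega : 2 ≤ w i)⟩)
      (by rw [hh]; simp)
  | succ h ih =>
    intro X _ L ι _ w f s hX S U hh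
    obtain ⟨i0, hi0⟩ : ∃ i, 2 ≤ w i := by
      have : 0 < ((Finset.univ : Finset ι).filter (fun i => 2 ≤ w i)).card := by omega
      obtain ⟨i, hi⟩ := Finset.card_pos.1 this
      exact ⟨i, (Finset.mem_filter.1 hi).2⟩
    refine sieve_step' (K0 := 2 * Fintype.card X + 2 + w i0) hX (by omega) fun q hq hK => ?_
    have : Fact q.Prime := ⟨hq⟩
    obtain ⟨L', f', v, s', hv, S', U'⟩ := step_split_sub S U i0 hi0 q (by omega) (by omega)
    have hc : Fintype.card (X × ZMod q) = Fintype.card X * q := by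
      rw [Fintype.card_prod, ZMod.card]
    rw [← hc]
    refine ih (X × ZMod q) L' (ι ⊕ ZMod q) _ f' s' ?_ S' U' ?_
    · rw [hc]
      exact Nat.mul_pos hX hq.pos
    · have hmem : i0 ∈ (Finset.univ : Finset ι).filter (fun i => 2 ≤ w i) :=
        Finset.mem_filter.2 ⟨Finset.mem_univ _, hi0⟩
      have : (Finset.univ : Finset (ι ⊕ ZMod q)).filter
          (fun i => 2 ≤ Sum.elim (Function.update w i0 1) v i) =
          (((Finset.univ : Finset ι).filter (fun i => 2 ≤ w i)).erase i0).map
            Function.Embedding.inl := by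
        ext i
        simp only [Finset.mem_filter, Finset.mem_univ, true_and, Finset.mem_map,
          Finset.mem_erase, Function.Embedding.inl_apply]
        constructor
        · intro hi
          rcases i with i | g
          · simp only [Sum.elim_inl] at hi
            refine ⟨i, ?_, rfl⟩
            by_cases hii : i = i0
            · subst hii
              rw [Function.update_self] at hi
              omega
            · rw [Function.update_of_ne hii] at hi
              exact ⟨hii, hi⟩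
          · simp only [Sum.elim_inr] at hi
            have := hv g
            omega
        · rintro ⟨a, ⟨ha, ha2⟩, rfl⟩
          simp only [Sum.elim_inl]
          rw [Function.update_of_ne ha]
          exact ha2
      rw [this, Finset.card_map, Finset.card_erase_of_mem hmem, hh]
      rfl

end Pool.Agent.H173L
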