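import Pool.Agent.H173L.Final
import Pool.Agent.H173L.Sub

/-!
# Covers with a 4-homogeneous subsquare
-/

set_option autoImplicit false

namespace Pool.Agent.H173L

open Finset
open scoped Classical

/-- the same unordered pair -/
def SameP {A : Type} (a c u u' : A) : Prop := (a = u ∧ c = u') ∨ (a = u' ∧ c = u)

theorem sameP_iff {A : Type} {a c u u' : A} : SameP a c u u' ↔ ({a, c} : Finset A) = {u, u'} := by
  constructor
  · rintro (⟨rfl, rfl⟩ | ⟨rfl, rfl⟩)
    · rfl
    · exact Finset.pair_comm _ _
  · intro h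
    have h1 : a ∈ ({u, u'} : Finset A) := by
      rw [← h]
      simp
    have h2 : c ∈ ({u, u'} : Finset A) := by
      rw [← h]
      simp
    have h3 : u ∈ ({a, c} : Finset A) := by
      rw [h]
      simp
    have h4 : u' ∈ ({a, c} : Finset A) := by
      rw [h]
      simp
    rw [Finset.mem_insert, Finset.mem_singleton] at h1 h2 h3 h4
    unfold SameP
    rcases h1 with rfl | rfl
    · rcases h4 with rfl | rfl
      · rcases h2 with rfl | rfl
        · exact Or.inl ⟨rfl, rfl⟩
        · exact Or.inl ⟨rfl, rfl⟩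
      · exact Or.inl ⟨rfl, rfl⟩
    · rcases h3 with rfl | rfl
      · rcases h2 with rfl | rfl
        · exact Or.inl ⟨rfl, rfl⟩
        · exact Or.inl ⟨rfl, rfl⟩
      · exact Or.inr ⟨rfl, rfl⟩

/-- a cover in which every intercalate of the subsquare occurs once -/
def SubCover {Y X : Type} (C : Y → Y → Y) (L : X → X → X) (s : Y → X) : Prop :=
  ∃ (J : Type) (_ : Fintype J) (a b c d : J → X), (∀ j, Quad L (a j) (b j) (c j) (d j)) ∧
    (∀ x y, ((Finset.univ : Finset J).filter
      (fun j => InC x y (a j) (b j) (c j) (d j))).card = 4) ∧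
    ∀ u v u' v', Quad L (s u) (s v) (s u') (s v') → ((Finset.univ : Finset J).filter
      (fun j => SameP (a j) (c j) (s u) (s u') ∧ SameP (b j) (d j) (s v) (s v'))).card = 1

/-- a 4-homogeneous square covers itself -/
theorem hom_subCover {Y : Type} [Fintype Y] {C : Y → Y → Y} (hC : IsHom4 Y C) :
    SubCover C C (fun u => u) := by
  let J : Type := {S : Finset Y × Finset Y // ∃ q : (Y × Y) × (Y × Y),
    Quad C q.1.1 q.1.2 q.2.1 q.2.2 ∧ S = ({q.1.1, q.2.1}, {q.1.2, q.2.2})}
  have hspec : ∀ j : J, Quad C j.2.choose.1.1 j.2.choose.1.2 j.2.choose.2.1 j.2.choose.2.2 ∧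
      j.1 = ({j.2.choose.1.1, j.2.choose.2.1}, {j.2.choose.1.2, j.2.choose.2.2}) :=
    fun j => j.2.choose_spec
  refine ⟨J, inferInstance, fun j => j.2.choose.1.1, fun j => j.2.choose.1.2,
    fun j => j.2.choose.2.1, fun j => j.2.choose.2.2, fun j => (hspec j).1, ?_, ?_⟩
  · intro x y
    rw [← hC.2 x y]
    symm
    refine Finset.card_bij (fun p hp => (⟨({x, p.1}, {y, p.2}), ⟨((x, y), p),
      (Finset.mem_filter.1 hp).2, rfl⟩⟩ : J)) ?_ ?_ ?_
    · intro p hp
      rw [Finset.mem_filter]
      refine ⟨Finset.mem_univ _, ?_⟩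
      obtain ⟨h1, h2⟩ := Prod.mk.inj
        (hspec (⟨({x, p.1}, {y, p.2}), ⟨((x, y), p), (Finset.mem_filter.1 hp).2, rfl⟩⟩ : J)).2
      constructor
      · have : x ∈ ({x, p.1} : Finset Y) := by simp
        rw [h1] at this
        simpa using this
      · have : y ∈ ({y, p.2} : Finset Y) := by simp
        rw [h2] at this
        simpa using this
    · intro p hp p' hp' hh
      obtain ⟨h1, h2⟩ := Prod.mk.inj (Subtype.mk.inj hh)
      have hq := (Finset.mem_filter.1 hp).2
      exact Prod.ext (pair_other hq.1 h1) (pair_other hq.2.1 h2)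
    · intro j hj
      rw [Finset.mem_filter] at hj
      obtain ⟨hq, hS⟩ := hspec j
      have hex : ∃ p : Y × Y, Quad C x y p.1 p.2 ∧ (({x, p.1} : Finset Y), ({y, p.2} : Finset Y)) =
          j.1 := by
        rw [hS]
        obtain ⟨h1 | h1, h2 | h2⟩ := hj.2
        · exact ⟨(j.2.choose.2.1, j.2.choose.2.2), by rw [h1, h2]; exact hq, by rw [h1, h2]⟩
        · exact ⟨(j.2.choose.2.1, j.2.choose.1.2), by rw [h1, h2]; exact hq.col,
            by rw [h1, h2, Finset.pair_comm j.2.choose.1.2 j.2.choose.2.2]⟩
        · exact ⟨(j.2.choose.1.1, j.2.choose.2.2), by rw [h1, h2]; exact hq.row,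
            by rw [h1, h2, Finset.pair_comm j.2.choose.1.1 j.2.choose.2.1]⟩
        · exact ⟨(j.2.choose.1.1, j.2.choose.1.2), by rw [h1, h2]; exact hq.swap,
            by rw [h1, h2, Finset.pair_comm j.2.choose.1.1 j.2.choose.2.1,
              Finset.pair_comm j.2.choose.1.2 j.2.choose.2.2]⟩
      obtain ⟨p, hp, hp2⟩ := hex
      exact ⟨p, Finset.mem_filter.2 ⟨Finset.mem_univ _, hp⟩, Subtype.ext hp2⟩
  · intro u v u' v' hq
    rw [Finset.card_eq_one]
    refine ⟨⟨({u, u'}, {v, v'}), ⟨((u, v), (u', v')), hq, rfl⟩⟩, ?_⟩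
    ext j
    rw [Finset.mem_filter, Finset.mem_singleton, sameP_iff, sameP_iff]
    constructor
    · rintro ⟨_, h, h'⟩
      exact Subtype.ext ((hspec j).2.trans (Prod.ext h h'))
    · intro h
      refine ⟨Finset.mem_univ _, ?_⟩
      have h2 := (hspec j).2
      rw [h] at h2
      have h3 := Prod.mk.inj h2
      rw [h]
      exact ⟨h3.1.symm, h3.2.symm⟩

section
variable {m t : ℕ} {K : Type} [NeZero m]

theorem comp_cover_sub (ht : t ≤ m) {Z : K → K → K} {P : Option K → Option K → Option K}
    {C : Fin t → Fin t → Fin t} (hZ : Cover K Z) (hP : HCover K P)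
    (hC : SubCover C C (fun u => u)) :
    SubCover C (comp m t Z P C) (fun u => Sum.inr u) := by
  obtain ⟨JZ, _, aZ, bZ, cZ, dZ, qZ, nZ⟩ := hZ
  obtain ⟨JP, _, aP, bP, cP, dP, qP, avP, nP⟩ := hP
  obtain ⟨JC, _, aC, bC, cC, dC, qC, nC, oC⟩ := hC
  refine ⟨((ZMod m × {d : ZMod m // ¬ d.val < t}) × JZ) ⊕ (((ZMod m × Fin t) × JP) ⊕ JC),
    inferInstance,
    Sum.elim (fun j => Sum.inl (j.1.1, aZ j.2))
      (Sum.elim (fun j => emb j.1.1 j.1.2 (aP j.2)) (fun j => Sum.inr (aC j))),
    Sum.elim (fun j => Sum.inl (j.1.1 + j.1.2.1, bZ j.2))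
      (Sum.elim (fun j => emb (j.1.1 + ((j.1.2 : ℕ) : ZMod m)) j.1.2 (bP j.2))
        (fun j => Sum.inr (bC j))),
    Sum.elim (fun j => Sum.inl (j.1.1, cZ j.2))
      (Sum.elim (fun j => emb j.1.1 j.1.2 (cP j.2)) (fun j => Sum.inr (cC j))),
    Sum.elim (fun j => Sum.inl (j.1.1 + j.1.2.1, dZ j.2))
      (Sum.elim (fun j => emb (j.1.1 + ((j.1.2 : ℕ) : ZMod m)) j.1.2 (dP j.2))
        (fun j => Sum.inr (dC j))), ?_, ?_, ?_⟩
  · rintro (⟨⟨x, ⟨d, hd⟩⟩, j⟩ | ⟨⟨x, h⟩, j⟩ | j)
    · simp only [Sum.elim_inl]
      have hv : ¬ (x + d - x).val < t := by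
        rw [add_sub_cancel_left]
        exact hd
      refine ⟨fun hh => (qZ j).1 (Prod.mk.inj (Sum.inl_injective hh)).2,
        fun hh => (qZ j).2.1 (Prod.mk.inj (Sum.inl_injective hh)).2, ?_, ?_⟩
      · rw [comp_off _ _ _ _ _ _ _ hv, comp_off _ _ _ _ _ _ _ hv, (qZ j).2.2.1]
      · rw [comp_off _ _ _ _ _ _ _ hv, comp_off _ _ _ _ _ _ _ hv, (qZ j).2.2.2]
    · simp only [Sum.elim_inl, Sum.elim_inr]
      exact quad_on ht Z C x h (qP j) (avP j)
    · simp only [Sum.elim_inr]
      refine ⟨fun hh => (qC j).1 (Sum.inr_injective hh),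
        fun hh => (qC j).2.1 (Sum.inr_injective hh), ?_, ?_⟩
      · simp only [comp]
        rw [(qC j).2.2.1]
      · simp only [comp]
        rw [(qC j).2.2.2]
  · -- counting
    have key_on : ∀ (x : ZMod m) (h : Fin t) (r c : Option K), ¬ (r = none ∧ c = none) →
        ∀ u v : Pt m t K, u = emb x h r → v = emb (x + ((h : ℕ) : ZMod m)) h c →
        ((Finset.univ : Finset (((ZMod m × {d : ZMod m // ¬ d.val < t}) × JZ) ⊕
          (((ZMod m × Fin t) × JP) ⊕ JC))).filter (fun j => InC u v
          (Sum.elim (fun j => Sum.inl (j.1.1, aZ j.2))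
            (Sum.elim (fun j => emb j.1.1 j.1.2 (aP j.2)) (fun j => Sum.inr (aC j))) j)
          (Sum.elim (fun j => Sum.inl (j.1.1 + j.1.2.1, bZ j.2))
            (Sum.elim (fun j => emb (j.1.1 + ((j.1.2 : ℕ) : ZMod m)) j.1.2 (bP j.2))
              (fun j => Sum.inr (bC j))) j)
          (Sum.elim (fun j => Sum.inl (j.1.1, cZ j.2))
            (Sum.elim (fun j => emb j.1.1 j.1.2 (cP j.2)) (fun j => Sum.inr (cC j))) j)
          (Sum.elim (fun j => Sum.inl (j.1.1 + j.1.2.1, dZ j.2))
            (Sum.elim (fun j => emb (j.1.1 + ((j.1.2 : ℕ) : ZMod m)) j.1.2 (dP j.2))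
              (fun j => Sum.inr (dC j))) j))).card = 4 := by
      rintro x h r c hrc u v rfl rfl
      rw [card_filter_sum, card_filter_sum]
      rw [card_filter_none, card_filter_single _ (x, h) (fun j => InC r c (aP j) (bP j) (cP j)
        (dP j)), nP r c hrc, card_filter_none]
      · -- hole family
        intro j hj
        simp only [Sum.elim_inr] at hj
        obtain ⟨h1, h2⟩ := hj
        apply hrc
        have hr : r = none := by
          rcases h1 with h1 | h1
          · exact (emb_inj (x' := x) (h' := aC j) (o' := none) h1).1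
          · exact (emb_inj (x' := x) (h' := cC j) (o' := none) h1).1
        have hc : c = none := by
          rcases h2 with h2 | h2
          · exact (emb_inj (x' := x) (h' := bC j) (o' := none) h2).1
          · exact (emb_inj (x' := x) (h' := dC j) (o' := none) h2).1
        exact ⟨hr, hc⟩
      · -- bordered family
        rintro ⟨x', h'⟩ j
        simp only [Sum.elim_inl, Sum.elim_inr, Prod.mk.injEq]
        constructor
        · rintro ⟨h1, h2⟩
          rcases h1 with h1 | h1 <;> rcases h2 with h2 | h2 <;>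
            obtain ⟨e1, e2, e3⟩ := emb_pos ht hrc h1 h2
          · exact ⟨e1, Or.inl e2, Or.inl e3⟩
          · exact ⟨e1, Or.inl e2, Or.inr e3⟩
          · exact ⟨e1, Or.inr e2, Or.inl e3⟩
          · exact ⟨e1, Or.inr e2, Or.inr e3⟩
        · rintro ⟨⟨rfl, rfl⟩, h1, h2⟩
          exact ⟨h1.imp (fun hh => by rw [hh]) (fun hh => by rw [hh]),
            h2.imp (fun hh => by rw [hh]) (fun hh => by rw [hh])⟩
      · -- plain family
        rintro ⟨⟨x', ⟨d, hd⟩⟩, j⟩ hj
        simp only [Sum.elim_inl] at hj
        obtain ⟨h1, h2⟩ := hj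
        have hx : x = x' := by
          rcases h1 with h1 | h1
          · have := emb_inj (x' := x') (h' := h) (o' := some (aZ j)) h1
            exact this.2.2 (by rw [this.1]; simp)
          · have := emb_inj (x' := x') (h' := h) (o' := some (cZ j)) h1
            exact this.2.2 (by rw [this.1]; simp)
        have hy : x + ((h : ℕ) : ZMod m) = x' + d := by
          rcases h2 with h2 | h2
          · have := emb_inj (x' := x' + d) (h' := h) (o' := some (bZ j)) h2
            exact this.2.2 (by rw [this.1]; simp)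
          · have := emb_inj (x' := x' + d) (h' := h) (o' := some (dZ j)) h2
            exact this.2.2 (by rw [this.1]; simp)
        rw [hx] at hy
        apply hd
        rw [← add_left_cancel hy, cast_val ht]
        exact h.isLt
    rintro (⟨x, i⟩ | h) v
    · rcases col_cases x v with ⟨h, c, rfl⟩ | ⟨y, j, rfl, hl⟩
      · exact key_on x h (some i) c (fun hh => by simp at hh) _ _ rfl rfl
      · rw [card_filter_sum, card_filter_sum]
        rw [card_filter_single _ (x, ⟨y - x, hl⟩) (fun jj => InC i j (aZ jj) (bZ jj) (cZ jj)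
          (dZ jj)), nZ i j, card_filter_none, card_filter_none]
        · intro jj hj
          simp only [Sum.elim_inr] at hj
          obtain ⟨h1 | h1, _⟩ := hj <;> exact absurd h1 (by simp)
        · rintro ⟨⟨x', h'⟩, jj⟩ hj
          simp only [Sum.elim_inl, Sum.elim_inr] at hj
          obtain ⟨h1, h2⟩ := hj
          have hx : x' = x := by
            rcases h1 with h1 | h1
            · have := emb_inj (x := x) (h := h') (o := some i) h1
              exact (this.2.2 (by simp)).symm
            · have := emb_inj (x := x) (h := h') (o := some i) h1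
              exact (this.2.2 (by simp)).symm
          have hy : y = x' + ((h' : ℕ) : ZMod m) := by
            rcases h2 with h2 | h2
            · have := emb_inj (x := y) (h := h') (o := some j) h2
              exact this.2.2 (by simp)
            · have := emb_inj (x := y) (h := h') (o := some j) h2
              exact this.2.2 (by simp)
          apply hl
          rw [hy, hx, add_sub_cancel_left, cast_val ht]
          exact h'.isLt
        · rintro ⟨x', ⟨d, hd⟩⟩ jj
          simp only [Sum.elim_inl, InC, Sum.inl.injEq, Prod.mk.injEq, Subtype.mk.injEq]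
          constructor
          · rintro ⟨h1, h2⟩
            have hx : x = x' := by
              rcases h1 with h1 | h1
              · exact h1.1
              · exact h1.1
            have hy : y = x' + d := by
              rcases h2 with h2 | h2
              · exact h2.1
              · exact h2.1
            refine ⟨⟨hx.symm, by rw [hy, hx]; ring⟩, h1.imp (fun hh => hh.2) (fun hh => hh.2),
              h2.imp (fun hh => hh.2) (fun hh => hh.2)⟩
          · rintro ⟨⟨rfl, rfl⟩, h1, h2⟩
            refine ⟨h1.imp (fun hh => ⟨rfl, hh⟩) (fun hh => ⟨rfl, hh⟩),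
              h2.imp (fun hh => ⟨by ring, hh⟩) (fun hh => ⟨by ring, hh⟩)⟩
    · rcases v with ⟨y, j⟩ | h'
      · exact key_on (y - ((h : ℕ) : ZMod m)) h none (some j) (fun hh => by simp at hh) _ _ rfl
          (by simp only [emb]; rw [sub_add_cancel])
      · rw [card_filter_sum, card_filter_sum]
        rw [card_filter_none, card_filter_none]
        · have := nC h h'
          rw [zero_add, zero_add]
          refine Eq.trans (congrArg Finset.card (Finset.filter_congr fun j _ => ?_)) this
          simp only [Sum.elim_inr, InC, Sum.inr.injEq]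
        · rintro ⟨⟨x', h''⟩, jj⟩ hj
          simp only [Sum.elim_inl, Sum.elim_inr] at hj
          obtain ⟨h1, h2⟩ := hj
          apply avP jj
          constructor
          · exact h1.imp (fun hh => (emb_inj (x := x') (h := h) (o := none) hh).1)
              (fun hh => (emb_inj (x := x') (h := h) (o := none) hh).1)
          · exact h2.imp (fun hh => (emb_inj (x := x') (h := h') (o := none) hh).1)
              (fun hh => (emb_inj (x := x') (h := h') (o := none) hh).1)
        · rintro ⟨⟨x', ⟨d, hd⟩⟩, jj⟩ hj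
          simp only [Sum.elim_inl] at hj
          obtain ⟨h1 | h1, _⟩ := hj <;> exact absurd h1 (by simp)
  · -- inside the subsquare
    intro u v u' v' hq
    have hqC : Quad C u v u' v' := by
      obtain ⟨h1, h2, h3, h4⟩ := hq
      simp only [comp, Sum.inr.injEq] at h3 h4
      exact ⟨fun hh => h1 (by rw [hh]), fun hh => h2 (by rw [hh]), h3, h4⟩
    rw [card_filter_sum, card_filter_sum, card_filter_none, card_filter_none]
    · rw [zero_add, zero_add]
      refine Eq.trans (congrArg Finset.card (Finset.filter_congr fun j _ => ?_))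
        (oC u v u' v' hqC)
      simp only [Sum.elim_inr, SameP, Sum.inr.injEq]
    · rintro ⟨⟨x', h'⟩, jj⟩ hj
      simp only [Sum.elim_inl, Sum.elim_inr] at hj
      have ha : aP jj = none := by
        rcases hj.1 with h1 | h1
        · exact (emb_inj (x' := x') (h' := u) (o' := none) h1.1).1
        · exact (emb_inj (x' := x') (h' := u') (o' := none) h1.1).1
      have hc : cP jj = none := by
        rcases hj.1 with h1 | h1
        · exact (emb_inj (x' := x') (h' := u') (o' := none) h1.2).1
        · exact (emb_inj (x' := x') (h' := u) (o' := none) h1.2).1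
      exact (qP jj).1 (ha.trans hc.symm)
    · rintro ⟨⟨x', ⟨d, hd⟩⟩, jj⟩ hj
      simp only [Sum.elim_inl] at hj
      rcases hj.1 with h1 | h1 <;> exact absurd h1.1 (by simp)

end

end Pool.Agent.H173L
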