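import Pool.Agent.H173L.Step

/-!
# Coefficients for the twists
-/

set_option autoImplicit false

namespace Pool.Agent.H173L

open Finset
open scoped Classical

/-- labels of the elements of a finite type -/
noncomputable def lbl (X : Type) [Fintype X] (x : X) : ℕ := (Fintype.equivFin X x).val + 1

theorem lbl_inj (X : Type) [Fintype X] : Function.Injective (lbl X) := by
  intro x y h
  unfold lbl at h
  exact (Fintype.equivFin X).injective (Fin.ext (Nat.succ_injective h))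

theorem lbl_pos {X : Type} [Fintype X] (x : X) : 1 ≤ lbl X x := Nat.succ_le_succ (Nat.zero_le _)

theorem lbl_le {X : Type} [Fintype X] (x : X) : lbl X x ≤ Fintype.card X :=
  (Fintype.equivFin X x).isLt

section
variable {X : Type} [Fintype X] {L : X → X → X} {ι : Type} {w : ι → ℕ}
  {f : X → X → X → X → ι}

/-- `x'` is the partner of the row `x` in the column `y` for the class `i0` -/
def Part (L : X → X → X) (f : X → X → X → X → ι) (i0 : ι) (x y x' : X) : Prop :=
  ∃ y', Quad L x y x' y' ∧ f x y x' y' = i0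

theorem part_symm (S : Sys X L ι w f) {i0 : ι} {x y x' : X} (h : Part L f i0 x y x') :
    Part L f i0 x' y x := by
  obtain ⟨y', h1, h2⟩ := h
  refine ⟨y', h1.row, ?_⟩
  rw [S.s1 _ _ _ _ h1.row, ← S.s2 _ _ _ _ h1, h2]

theorem part_unique (S : Sys X L ι w f) {i0 : ι} {x y x1 x2 : X} (h1 : Part L f i0 x y x1)
    (h2 : Part L f i0 x y x2) : x1 = x2 := by
  obtain ⟨y1, h1, e1⟩ := h1
  obtain ⟨y2, h2, e2⟩ := h2
  exact S.mt _ _ _ _ _ _ h1 h2 (e1.trans e2.symm)

omit [Fintype X] in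
theorem part_ne {i0 : ι} {x y x' : X} (h : Part L f i0 x y x') : x ≠ x' := by
  obtain ⟨y', h1, _⟩ := h
  exact h1.1

/-- the integer coefficients -/
noncomputable def bZ (L : X → X → X) (f : X → X → X → X → ι) (i0 : ι) (x y : X) : ℤ :=
  if h : ∃ x', Part L f i0 x y x' then
    (if lbl X x < lbl X h.choose then (lbl X x : ℤ) else -(lbl X h.choose : ℤ))
  else (Fintype.card X : ℤ) + 1

theorem bZ_pos (S : Sys X L ι w f) {i0 : ι} {x y x' : X} (h : Part L f i0 x y x')
    (hl : lbl X x < lbl X x') : bZ L f i0 x y = lbl X x := by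
  have hex : ∃ x', Part L f i0 x y x' := ⟨x', h⟩
  unfold bZ
  rw [dif_pos hex]
  have : hex.choose = x' := part_unique S hex.choose_spec h
  rw [this, if_pos hl]

theorem bZ_neg (S : Sys X L ι w f) {i0 : ι} {x y x' : X} (h : Part L f i0 x y x')
    (hl : lbl X x' < lbl X x) : bZ L f i0 x y = -(lbl X x' : ℤ) := by
  have hex : ∃ x', Part L f i0 x y x' := ⟨x', h⟩
  unfold bZ
  rw [dif_pos hex]
  have : hex.choose = x' := part_unique S hex.choose_spec h
  rw [this, if_neg (not_lt.2 hl.le)]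

theorem bZ_cases (S : Sys X L ι w f) (i0 : ι) (x y : X) :
    (∃ x', Part L f i0 x y x' ∧ lbl X x < lbl X x' ∧ bZ L f i0 x y = lbl X x) ∨
    (∃ x', Part L f i0 x y x' ∧ lbl X x' < lbl X x ∧ bZ L f i0 x y = -(lbl X x' : ℤ)) ∨
    bZ L f i0 x y = (Fintype.card X : ℤ) + 1 := by
  by_cases hex : ∃ x', Part L f i0 x y x'
  · obtain ⟨x', h⟩ := hex
    have hne : lbl X x ≠ lbl X x' := fun hh => part_ne h (lbl_inj X hh)
    rcases lt_or_gt_of_ne hne with hl | hl
    · exact Or.inl ⟨x', h, hl, bZ_pos S h hl⟩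
    · exact Or.inr (Or.inl ⟨x', h, hl, bZ_neg S h hl⟩)
  · right
    right
    unfold bZ
    rw [dif_neg hex]

theorem bZ_ne (S : Sys X L ι w f) (i0 : ι) (x y : X) :
    bZ L f i0 x y ≠ 0 ∧ |bZ L f i0 x y| ≤ (Fintype.card X : ℤ) + 1 := by
  have hx := lbl_pos x
  have hx' := lbl_le x
  rcases bZ_cases S i0 x y with ⟨x', _, _, h⟩ | ⟨x', _, _, h⟩ | h
  · rw [h]
    refine ⟨by omega, ?_⟩
    rw [abs_le]
    constructor <;> omega
  · have hx := lbl_pos x'
    have hx' := lbl_le x'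
    rw [h]
    refine ⟨by omega, ?_⟩
    rw [abs_le]
    constructor <;> omega
  · rw [h]
    refine ⟨by omega, ?_⟩
    rw [abs_le]
    constructor <;> omega

theorem bZ_zero (S : Sys X L ι w f) {i0 : ι} {x y x' : X} (h : Part L f i0 x y x') :
    bZ L f i0 x y + bZ L f i0 x' y = 0 := by
  have hne : lbl X x ≠ lbl X x' := fun hh => part_ne h (lbl_inj X hh)
  rcases lt_or_gt_of_ne hne with hl | hl
  · rw [bZ_pos S h hl, bZ_neg S (part_symm S h) hl]
    ring
  · rw [bZ_neg S h hl, bZ_pos S (part_symm S h) hl]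
    ring

theorem bZ_nonzero (S : Sys X L ι w f) {i0 : ι} {x y x' y' : X} (h : Quad L x y x' y')
    (hf : f x y x' y' ≠ i0) : bZ L f i0 x y + bZ L f i0 x' y ≠ 0 := by
  have hP : ¬ Part L f i0 x y x' := by
    rintro ⟨y'', h1, h2⟩
    rw [h.col_unique S.lat h1] at hf
    exact hf h2
  have hP' : ¬ Part L f i0 x' y x := fun hh => hP (part_symm S hh)
  have hx := lbl_pos x
  have hx2 := lbl_pos x'
  intro h0
  rcases bZ_cases S i0 x y with ⟨p, h1, h2, h3⟩ | ⟨p, h1, h2, h3⟩ | h3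
  · rcases bZ_cases S i0 x' y with ⟨p', h1', h2', h3'⟩ | ⟨p', h1', h2', h3'⟩ | h3'
    · rw [h3, h3'] at h0
      omega
    · rw [h3, h3'] at h0
      have : lbl X x = lbl X p' := by omega
      rw [lbl_inj X this] at hP'
      exact hP' h1'
    · rw [h3, h3'] at h0
      omega
  · rcases bZ_cases S i0 x' y with ⟨p', h1', h2', h3'⟩ | ⟨p', h1', h2', h3'⟩ | h3'
    · rw [h3, h3'] at h0
      have : lbl X x' = lbl X p := by omega
      rw [lbl_inj X this] at hP
      exact hP h1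
    · rw [h3, h3'] at h0
      have := lbl_pos p
      omega
    · rw [h3, h3'] at h0
      have := lbl_le p
      omega
  · rcases bZ_cases S i0 x' y with ⟨p', h1', h2', h3'⟩ | ⟨p', h1', h2', h3'⟩ | h3'
    · rw [h3, h3'] at h0
      omega
    · rw [h3, h3'] at h0
      have := lbl_le p'
      omega
    · rw [h3, h3'] at h0
      omega

/-- the integer constants -/
noncomputable def gZ (L : X → X → X) (f : X → X → X → X → ι) (i0 : ι) (x y : X) : ℤ :=
  if ∃ x' y', Quad L x y x' y' ∧ f x y x' y' = i0 ∧ lbl X x < lbl X x' ∧ lbl X y < lbl X y' then 1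
  else 0

theorem gZ_eq (S : Sys X L ι w f) {i0 : ι} {x y x' y' : X} (h : Quad L x y x' y')
    (hf : f x y x' y' = i0) :
    gZ L f i0 x y = if lbl X x < lbl X x' ∧ lbl X y < lbl X y' then 1 else 0 := by
  unfold gZ
  by_cases hl : lbl X x < lbl X x' ∧ lbl X y < lbl X y'
  · rw [if_pos hl, if_pos ⟨x', y', h, hf, hl.1, hl.2⟩]
  · rw [if_neg hl, if_neg]
    rintro ⟨x1, y1, h1, h2, h3, h4⟩
    have hx : x' = x1 := S.mt _ _ _ _ _ _ h h1 (hf.trans h2.symm)
    subst hx
    have hy : y' = y1 := h.col_unique S.lat h1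
    subst hy
    exact hl ⟨h3, h4⟩

theorem gZ_ne (S : Sys X L ι w f) {i0 : ι} {x y x' y' : X} (h : Quad L x y x' y')
    (hf : f x y x' y' = i0) :
    (gZ L f i0 x y + gZ L f i0 x' y = 1 ∧ gZ L f i0 x y' + gZ L f i0 x' y' = 0) ∨
    (gZ L f i0 x y + gZ L f i0 x' y = 0 ∧ gZ L f i0 x y' + gZ L f i0 x' y' = 1) := by
  have hB : f x y' x' y = i0 := by rw [← S.s2 _ _ _ _ h, hf]
  have hC : f x' y x y' = i0 := by rw [S.s1 _ _ _ _ h.row, hB]
  have hD : f x' y' x y = i0 := by rw [← S.s1 _ _ _ _ h, hf]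
  rw [gZ_eq S h hf, gZ_eq S h.col hB, gZ_eq S h.row hC, gZ_eq S h.swap hD]
  have h1 : lbl X x ≠ lbl X x' := fun hh => h.1 (lbl_inj X hh)
  have h2 : lbl X y ≠ lbl X y' := fun hh => h.2.1 (lbl_inj X hh)
  rcases lt_or_gt_of_ne h1 with h1 | h1 <;> rcases lt_or_gt_of_ne h2 with h2 | h2 <;>
    simp [h1, h2, not_lt.2 h1.le, not_lt.2 h2.le]

theorem cast_ne_zero {q : ℕ} {z : ℤ} (h0 : z ≠ 0) (hz : |z| < q) : (z : ZMod q) ≠ 0 := by
  intro h
  rw [ZMod.intCast_zmod_eq_zero_iff_dvd] at h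
  exact h0 (Int.eq_zero_of_abs_lt_dvd h hz)

theorem step_kill (S : Sys X L ι w f) (i0 : ι) (hw : w i0 = 0) (q : ℕ) [Fact q.Prime]
    (hq : 2 * Fintype.card X + 2 < q) :
    ∃ (L' : X × ZMod q → X × ZMod q → X × ZMod q)
      (f' : X × ZMod q → X × ZMod q → X × ZMod q → X × ZMod q → ι),
      Sys (X × ZMod q) L' ι (Function.update w i0 1) f' := by
  refine ⟨_, _, sys_kill S i0 hw (β := fun x y => ((bZ L f i0 x y : ℤ) : ZMod q))
    (γ := fun x y => ((gZ L f i0 x y : ℤ) : ZMod q)) ?_ ?_ ?_ ?_ ?_⟩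
  · intro x y
    obtain ⟨h1, h2⟩ := bZ_ne S i0 x y
    exact (isUnit_iff_ne_zero).2 (cast_ne_zero h1 (lt_of_le_of_lt h2 (by omega)))
  · have : ((2 : ℤ) : ZMod q) ≠ 0 := cast_ne_zero (by norm_num) (by rw [abs_of_pos] <;> omega)
    exact (isUnit_iff_ne_zero).2 (by simpa using this)
  · intro x y x' y' h hf
    have := bZ_zero S (i0 := i0) (x := x) (y := y) (x' := x') ⟨y', h, hf⟩
    have h2 := congrArg (fun z : ℤ => (z : ZMod q)) this
    simpa using h2
  · intro x y x' y' h hf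
    have h1 := bZ_nonzero S h hf
    have h2 := (bZ_ne S i0 x y).2
    have h3 := (bZ_ne S i0 x' y).2
    have h4 : |bZ L f i0 x y + bZ L f i0 x' y| < q := by
      refine lt_of_le_of_lt (abs_add_le _ _) ?_
      omega
    have h5 := cast_ne_zero h1 h4
    exact (isUnit_iff_ne_zero).2 (by simpa using h5)
  · intro x y x' y' h hf
    rcases gZ_ne S h hf with ⟨h1, h2⟩ | ⟨h1, h2⟩
    · have h3 := congrArg (fun z : ℤ => (z : ZMod q)) h1
      have h4 := congrArg (fun z : ℤ => (z : ZMod q)) h2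
      simp only [Int.cast_add, Int.cast_one, Int.cast_zero] at h3 h4
      rw [h3, h4]
      exact one_ne_zero
    · have h3 := congrArg (fun z : ℤ => (z : ZMod q)) h1
      have h4 := congrArg (fun z : ℤ => (z : ZMod q)) h2
      simp only [Int.cast_add, Int.cast_one, Int.cast_zero] at h3 h4
      rw [h3, h4]
      exact zero_ne_one

theorem step_split (S : Sys X L ι w f) (i0 : ι) (q : ℕ) [Fact q.Prime]
    (hq : 2 * Fintype.card X + 2 < q) (hw : w i0 ≤ q) :
    ∃ (L' : X × ZMod q → X × ZMod q → X × ZMod q)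
      (f' : X × ZMod q → X × ZMod q → X × ZMod q → X × ZMod q → ι ⊕ ZMod q)
      (v : ZMod q → ℕ), (∀ g, v g ≤ 1) ∧
      Sys (X × ZMod q) L' (ι ⊕ ZMod q) (Sum.elim (Function.update w i0 1) v) f' := by
  have hcard : w i0 ≤ (Finset.univ : Finset (ZMod q)).card := by
    rw [Finset.card_univ, ZMod.card]
    exact hw
  obtain ⟨W, _, hW⟩ := Finset.exists_subset_card_eq hcard
  refine ⟨_, _, _, ?_, sys_split S i0 (lbl_inj X)
    (β := fun x y => ((bZ L f i0 x y : ℤ) : ZMod q)) W hW ?_ ?_ ?_ ?_⟩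
  · intro g
    split_ifs <;> omega
  · intro x y
    obtain ⟨h1, h2⟩ := bZ_ne S i0 x y
    exact (isUnit_iff_ne_zero).2 (cast_ne_zero h1 (lt_of_le_of_lt h2 (by omega)))
  · have : ((2 : ℤ) : ZMod q) ≠ 0 := cast_ne_zero (by norm_num) (by rw [abs_of_pos] <;> omega)
    exact (isUnit_iff_ne_zero).2 (by simpa using this)
  · intro x y x' y' h hf
    have := bZ_zero S (i0 := i0) (x := x) (y := y) (x' := x') ⟨y', h, hf⟩
    have h2 := congrArg (fun z : ℤ => (z : ZMod q)) this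
    simpa using h2
  · intro x y x' y' h hf
    have h1 := bZ_nonzero S h hf
    have h2 := (bZ_ne S i0 x y).2
    have h3 := (bZ_ne S i0 x' y).2
    have h4 : |bZ L f i0 x y + bZ L f i0 x' y| < q := by
      refine lt_of_le_of_lt (abs_add_le _ _) ?_
      omega
    have h5 := cast_ne_zero h1 h4
    exact (isUnit_iff_ne_zero).2 (by simpa using h5)

end

end Pool.Agent.H173L
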