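import Pool.Agent.H173L.Cover

/-!
# A composition: blow up the cyclic square and fill transversal blocks with bordered squares
-/

set_option autoImplicit false

namespace Pool.Agent.H173L

open Finset
open scoped Classical

section
variable {m t : ℕ} {K : Type}

/-- the points -/
abbrev Pt (m t : ℕ) (K : Type) : Type := (ZMod m × K) ⊕ Fin t

/-- embedding of the rows (or columns) of a bordered block -/
def emb (x : ZMod m) (h : Fin t) : Option K → Pt m t K
  | some i => Sum.inl (x, i)
  | none => Sum.inr h

/-- the composed square -/
noncomputable def comp (m t : ℕ) {K : Type} (Z : K → K → K) (P : Option K → Option K → Option K)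
    (C : Fin t → Fin t → Fin t) : Pt m t K → Pt m t K → Pt m t K
  | Sum.inl (x, i), Sum.inl (y, j) =>
      if h : (y - x).val < t then emb (x + y) ⟨(y - x).val, h⟩ (P (some i) (some j))
      else Sum.inl (x + y, Z i j)
  | Sum.inl (x, i), Sum.inr h => emb (2 * x + ((h : ℕ) : ZMod m)) h (P (some i) none)
  | Sum.inr h, Sum.inl (y, j) => emb (2 * y - ((h : ℕ) : ZMod m)) h (P none (some j))
  | Sum.inr h, Sum.inr h' => Sum.inr (C h h')

theorem emb_inj {x x' : ZMod m} {h h' : Fin t} {o o' : Option K}
    (he : emb x h o = emb x' h' o') :
    o = o' ∧ (o = none → h = h') ∧ (o ≠ none → x = x') := by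
  cases o with
  | none =>
    cases o' with
    | none =>
      simp only [emb, Sum.inr.injEq] at he
      exact ⟨rfl, fun _ => he, fun hh => absurd rfl hh⟩
    | some i => simp [emb] at he
  | some i =>
    cases o' with
    | none => simp [emb] at he
    | some i' =>
      simp only [emb, Sum.inl.injEq, Prod.mk.injEq] at he
      exact ⟨by rw [he.2], fun hh => by simp at hh, fun _ => he.1⟩

variable [NeZero m]

omit [NeZero m] in
theorem cast_val (ht : t ≤ m) (h : Fin t) : (((h : ℕ) : ZMod m)).val = h :=
  ZMod.val_cast_of_lt (lt_of_lt_of_le h.isLt ht)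

omit [NeZero m] in
theorem cast_inj (ht : t ≤ m) {h h' : Fin t} (he : ((h : ℕ) : ZMod m) = ((h' : ℕ) : ZMod m)) :
    h = h' := by
  have := congrArg ZMod.val he
  rw [cast_val ht, cast_val ht] at this
  exact Fin.ext this

omit [NeZero m] in
theorem two_unit (hm : Odd m) : IsUnit (2 : ZMod m) := by
  have := (ZMod.isUnit_iff_coprime 2 m).2 (Nat.coprime_two_left.2 hm)
  simpa using this

omit [NeZero m] in
/-- the value in a bordered block -/
theorem comp_on (ht : t ≤ m) (Z : K → K → K) (P : Option K → Option K → Option K)
    (C : Fin t → Fin t → Fin t) (x : ZMod m) (h : Fin t) (r c : Option K)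
    (hrc : ¬ (r = none ∧ c = none)) :
    comp m t Z P C (emb x h r) (emb (x + ((h : ℕ) : ZMod m)) h c) =
      emb (2 * x + ((h : ℕ) : ZMod m)) h (P r c) := by
  cases r with
  | none =>
    cases c with
    | none => exact absurd ⟨rfl, rfl⟩ hrc
    | some j =>
      simp only [emb, comp]
      have h1 : 2 * (x + ((h : ℕ) : ZMod m)) - ((h : ℕ) : ZMod m) =
          2 * x + ((h : ℕ) : ZMod m) := by ring
      rw [h1]
  | some i =>
    cases c with
    | none => simp only [emb, comp]
    | some j =>
      simp only [emb, comp]
      have hv : (x + ((h : ℕ) : ZMod m) - x).val = h := by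
        rw [add_sub_cancel_left, cast_val ht]
      rw [dif_pos (by rw [hv]; exact h.isLt)]
      have h1 : (⟨(x + ((h : ℕ) : ZMod m) - x).val, by rw [hv]; exact h.isLt⟩ : Fin t) = h :=
        Fin.ext hv
      rw [h1]
      have h2 : x + (x + ((h : ℕ) : ZMod m)) = 2 * x + ((h : ℕ) : ZMod m) := by ring
      rw [h2]

omit [NeZero m] in
theorem comp_off (Z : K → K → K) (P : Option K → Option K → Option K)
    (C : Fin t → Fin t → Fin t) (x y : ZMod m) (i j : K) (h : ¬ (y - x).val < t) :
    comp m t Z P C (Sum.inl (x, i)) (Sum.inl (y, j)) = Sum.inl (x + y, Z i j) := by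
  simp only [comp]
  rw [dif_neg h]

/-- the columns seen from a row of the block `x` -/
theorem col_cases (x : ZMod m) (u : Pt m t K) :
    (∃ (h : Fin t) (c : Option K), u = emb (x + ((h : ℕ) : ZMod m)) h c) ∨
    (∃ (y : ZMod m) (j : K), u = Sum.inl (y, j) ∧ ¬ (y - x).val < t) := by
  rcases u with ⟨y, j⟩ | h
  · by_cases hl : (y - x).val < t
    · left
      refine ⟨⟨(y - x).val, hl⟩, some j, ?_⟩
      simp only [emb]
      rw [ZMod.natCast_val, ZMod.cast_id']
      simp
    · right
      exact ⟨y, j, rfl, hl⟩
  · left
    exact ⟨h, none, rfl⟩

/-- the rows seen from a column of the block `y` -/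
theorem row_cases (y : ZMod m) (v : Pt m t K) :
    (∃ (h : Fin t) (r : Option K), v = emb (y - ((h : ℕ) : ZMod m)) h r) ∨
    (∃ (x : ZMod m) (i : K), v = Sum.inl (x, i) ∧ ¬ (y - x).val < t) := by
  rcases v with ⟨x, i⟩ | h
  · by_cases hl : (y - x).val < t
    · left
      refine ⟨⟨(y - x).val, hl⟩, some i, ?_⟩
      simp only [emb]
      rw [ZMod.natCast_val, ZMod.cast_id']
      simp
    · right
      exact ⟨x, i, rfl, hl⟩
  · left
    exact ⟨h, none, rfl⟩

theorem comp_latin (hm : Odd m) (ht : t ≤ m) {Z : K → K → K}
    {P : Option K → Option K → Option K} {C : Fin t → Fin t → Fin t}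
    (hZ : Latin Z) (hP : Latin P) (hC : Latin C) (hn : P none none = none) :
    Latin (comp m t Z P C) := by
  have h2 := two_unit hm
  constructor
  · rintro (⟨x, i⟩ | h0) u v huv
    · rcases col_cases x u with ⟨h, c, rfl⟩ | ⟨y, j, rfl, hl⟩
      · have e1 := comp_on ht Z P C x h (some i) c (fun hh => by simp at hh)
        rcases col_cases x v with ⟨h', c', rfl⟩ | ⟨y', j', rfl, hl'⟩
        · have e2 := comp_on ht Z P C x h' (some i) c' (fun hh => by simp at hh)
          have e3 : emb (2 * x + ((h : ℕ) : ZMod m)) h (P (some i) c) =
              emb (2 * x + ((h' : ℕ) : ZMod m)) h' (P (some i) c') := by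
            rw [← e1, ← e2]
            exact huv
          obtain ⟨h3, h4, h5⟩ := emb_inj e3
          have hc : c = c' := hP.1 (some i) h3
          have hh : h = h' := by
            by_cases ho : P (some i) c = none
            · exact h4 ho
            · exact cast_inj ht (add_left_cancel (h5 ho))
          rw [hc, hh]
        · exfalso
          have e2 := comp_off Z P C x y' i j' hl'
          have e3 : emb (2 * x + ((h : ℕ) : ZMod m)) h (P (some i) c) =
              (emb (x + y') h (some (Z i j')) : Pt m t K) := by
            rw [← e1]
            exact huv.trans e2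
          obtain ⟨h3, h4, h5⟩ := emb_inj e3
          have h6 := h5 (by rw [h3]; simp)
          apply hl'
          have : y' - x = ((h : ℕ) : ZMod m) := by linear_combination -h6
          rw [this, cast_val ht]
          exact h.isLt
      · have e1 := comp_off Z P C x y i j hl
        rcases col_cases x v with ⟨h', c', rfl⟩ | ⟨y', j', rfl, hl'⟩
        · exfalso
          have e2 := comp_on ht Z P C x h' (some i) c' (fun hh => by simp at hh)
          have e3 : emb (2 * x + ((h' : ℕ) : ZMod m)) h' (P (some i) c') =
              (emb (x + y) h' (some (Z i j)) : Pt m t K) := by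
            rw [← e2]
            exact huv.symm.trans e1
          obtain ⟨h3, h4, h5⟩ := emb_inj e3
          have h6 := h5 (by rw [h3]; simp)
          apply hl
          have : y - x = ((h' : ℕ) : ZMod m) := by linear_combination -h6
          rw [this, cast_val ht]
          exact h'.isLt
        · have e2 := comp_off Z P C x y' i j' hl'
          rw [e1, e2] at huv
          obtain ⟨h3, h4⟩ := Prod.mk.inj (Sum.inl_injective huv)
          rw [add_left_cancel h3, hZ.1 i h4]
    · rcases u with ⟨y, j⟩ | h
      · rcases v with ⟨y', j'⟩ | h'
        · simp only [comp] at huv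
          obtain ⟨h3, _, h5⟩ := emb_inj huv
          have h6 : some j = some j' := hP.1 none h3
          have h7 : P none (some j) ≠ none := by
            intro hh
            exact absurd (hP.1 none (hh.trans hn.symm)) (by simp)
          have h8 := h5 h7
          have h9 : (2 : ZMod m) * y = 2 * y' := by linear_combination h8
          rw [h2.mul_left_cancel h9, Option.some_injective _ h6]
        · exfalso
          simp only [comp] at huv
          have h3 : emb (2 * y - ((h0 : ℕ) : ZMod m)) h0 (P none (some j)) =
            (emb 0 (C h0 h') none : Pt m t K) := huv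
          have h4 := (emb_inj h3).1
          exact absurd (hP.1 none (h4.trans hn.symm)) (by simp)
      · rcases v with ⟨y', j'⟩ | h'
        · exfalso
          simp only [comp] at huv
          have h3 : (emb 0 (C h0 h) none : Pt m t K) =
            emb (2 * y' - ((h0 : ℕ) : ZMod m)) h0 (P none (some j')) := huv
          have h4 := (emb_inj h3).1
          exact absurd (hP.1 none (h4.symm.trans hn.symm)) (by simp)
        · simp only [comp, Sum.inr.injEq] at huv
          rw [hC.1 h0 huv]
  · rintro (⟨y, j⟩ | h0) u v huv
    · simp only at huv
      rcases row_cases y u with ⟨h, r, rfl⟩ | ⟨x, i, rfl, hl⟩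
      · have e1 := comp_on ht Z P C (y - ((h : ℕ) : ZMod m)) h r (some j)
          (fun hh => by simp at hh)
        rw [sub_add_cancel] at e1
        rcases row_cases y v with ⟨h', r', rfl⟩ | ⟨x', i', rfl, hl'⟩
        · have e2 := comp_on ht Z P C (y - ((h' : ℕ) : ZMod m)) h' r' (some j)
            (fun hh => by simp at hh)
          rw [sub_add_cancel] at e2
          have e3 := e1.symm.trans (huv.trans e2)
          obtain ⟨h3, h4, h5⟩ := emb_inj e3
          have hr : r = r' := hP.2 (some j) h3
          have hh : h = h' := by
            by_cases ho : P r (some j) = none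
            · exact h4 ho
            · refine cast_inj ht ?_
              linear_combination -(h5 ho)
          rw [hr, hh]
        · exfalso
          have e2 := comp_off Z P C x' y i' j hl'
          have e3 : emb (2 * (y - ((h : ℕ) : ZMod m)) + ((h : ℕ) : ZMod m)) h (P r (some j)) =
              (emb (x' + y) h (some (Z i' j)) : Pt m t K) := e1.symm.trans (huv.trans e2)
          obtain ⟨h3, h4, h5⟩ := emb_inj e3
          have h6 := h5 (by rw [h3]; simp)
          apply hl'
          have : y - x' = ((h : ℕ) : ZMod m) := by linear_combination h6
          rw [this, cast_val ht]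
          exact h.isLt
      · have e1 := comp_off Z P C x y i j hl
        rcases row_cases y v with ⟨h', r', rfl⟩ | ⟨x', i', rfl, hl'⟩
        · exfalso
          have e2 := comp_on ht Z P C (y - ((h' : ℕ) : ZMod m)) h' r' (some j)
            (fun hh => by simp at hh)
          rw [sub_add_cancel] at e2
          have e3 : emb (2 * (y - ((h' : ℕ) : ZMod m)) + ((h' : ℕ) : ZMod m)) h' (P r' (some j)) =
              (emb (x + y) h' (some (Z i j)) : Pt m t K) := e2.symm.trans (huv.symm.trans e1)
          obtain ⟨h3, h4, h5⟩ := emb_inj e3
          have h6 := h5 (by rw [h3]; simp)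
          apply hl
          have : y - x = ((h' : ℕ) : ZMod m) := by linear_combination h6
          rw [this, cast_val ht]
          exact h'.isLt
        · have e2 := comp_off Z P C x' y i' j hl'
          rw [e1, e2] at huv
          obtain ⟨h3, h4⟩ := Prod.mk.inj (Sum.inl_injective huv)
          have h5 : i = i' := hZ.2 j h4
          rw [add_right_cancel h3, h5]
    · rcases u with ⟨x, i⟩ | h
      · rcases v with ⟨x', i'⟩ | h'
        · simp only [comp] at huv
          obtain ⟨h3, _, h5⟩ := emb_inj huv
          have h6 : some i = some i' := hP.2 none h3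
          have h7 : P (some i) none ≠ none := by
            intro hh
            have h8 : P (some i) none = P none none := by rw [hh, hn]
            exact absurd (hP.2 none h8) (by simp)
          have h8 := h5 h7
          have h9 : (2 : ZMod m) * x = 2 * x' := by linear_combination h8
          rw [h2.mul_left_cancel h9, Option.some_injective _ h6]
        · exfalso
          simp only [comp] at huv
          have h3 : emb (2 * x + ((h0 : ℕ) : ZMod m)) h0 (P (some i) none) =
            (emb 0 (C h' h0) none : Pt m t K) := huv
          have h4 := (emb_inj h3).1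
          have h8 : P (some i) none = P none none := by rw [h4, hn]
          exact absurd (hP.2 none h8) (by simp)
      · rcases v with ⟨x', i'⟩ | h'
        · exfalso
          simp only [comp] at huv
          have h3 : (emb 0 (C h h0) none : Pt m t K) =
            emb (2 * x' + ((h0 : ℕ) : ZMod m)) h0 (P (some i') none) := huv
          have h4 := (emb_inj h3).1
          have h8 : P (some i') none = P none none := by rw [← h4, hn]
          exact absurd (hP.2 none h8) (by simp)
        · simp only [comp, Sum.inr.injEq] at huv
          have := hC.2 h0 huv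
          rw [this]

end

end Pool.Agent.H173L
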