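import Mathlib

/-!
# Sets of natural numbers of density zero
-/

set_option autoImplicit false

namespace Pool.Agent.H173L

open Finset
open scoped Classical

/-- number of elements of `A` below `N` -/
noncomputable def cnt (A : Set ℕ) (N : ℕ) : ℕ := ((Finset.range N).filter (fun n => n ∈ A)).card

/-- density zero -/
def Null (A : Set ℕ) : Prop := ∀ ε : ℝ, 0 < ε → ∃ N0 : ℕ, ∀ N, N0 ≤ N → (cnt A N : ℝ) ≤ ε * N

theorem cnt_mono {A B : Set ℕ} (h : A ⊆ B) (N : ℕ) : cnt A N ≤ cnt B N := by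
  apply Finset.card_le_card
  intro n hn
  rw [Finset.mem_filter] at hn ⊢
  exact ⟨hn.1, h hn.2⟩

theorem cnt_union {A B C : Set ℕ} (hC : ∀ n ∈ C, n ∈ A ∨ n ∈ B) (N : ℕ) :
    cnt C N ≤ cnt A N + cnt B N := by
  unfold cnt
  refine le_trans (Finset.card_le_card ?_) (Finset.card_union_le _ _)
  intro n hn
  rw [Finset.mem_filter] at hn
  rw [Finset.mem_union, Finset.mem_filter, Finset.mem_filter]
  rcases hC n hn.2 with h | h
  · exact Or.inl ⟨hn.1, h⟩
  · exact Or.inr ⟨hn.1, h⟩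

theorem Null.mono {A B : Set ℕ} (hB : Null B) (h : A ⊆ B) : Null A := by
  intro ε hε
  obtain ⟨N0, hN⟩ := hB ε hε
  refine ⟨N0, fun N h' => le_trans ?_ (hN N h')⟩
  exact_mod_cast cnt_mono h N

theorem null_empty : Null ∅ := by
  intro ε hε
  refine ⟨0, fun N _ => ?_⟩
  have : cnt ∅ N = 0 := by
    unfold cnt
    simp
  rw [this]
  have : (0 : ℝ) ≤ (N : ℝ) := Nat.cast_nonneg N
  simp only [Nat.cast_zero]
  positivity

theorem Null.union {A B : Set ℕ} (hA : Null A) (hB : Null B) : Null (A ∪ B) := by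
  intro ε hε
  obtain ⟨N1, h1⟩ := hA (ε / 2) (by linarith)
  obtain ⟨N2, h2⟩ := hB (ε / 2) (by linarith)
  refine ⟨max N1 N2, fun N hN => ?_⟩
  have h3 := h1 N (le_trans (le_max_left _ _) hN)
  have h4 := h2 N (le_trans (le_max_right _ _) hN)
  have h5 : (cnt (A ∪ B) N : ℝ) ≤ cnt A N + cnt B N := by
    exact_mod_cast cnt_union (fun n hn => hn) N
  linarith

theorem null_biUnion (s : Finset ℕ) (B : ℕ → Set ℕ) (h : ∀ q ∈ s, Null (B q)) :
    Null {n | ∃ q ∈ s, n ∈ B q} := by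
  induction s using Finset.induction_on with
  | empty =>
    refine null_empty.mono ?_
    rintro n ⟨q, hq, _⟩
    exact absurd hq (Finset.notMem_empty q)
  | insert a s ha ih =>
    have h1 := h a (Finset.mem_insert_self a s)
    have h2 := ih (fun q hq => h q (Finset.mem_insert_of_mem hq))
    refine (h1.union h2).mono ?_
    rintro n ⟨q, hq, hn⟩
    rcases Finset.mem_insert.1 hq with rfl | hq
    · exact Or.inl hn
    · exact Or.inr ⟨q, hq, hn⟩

theorem null_of_approx {A : Set ℕ}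
    (h : ∀ ε : ℝ, 0 < ε → ∃ B E : Set ℕ, Null B ∧ A ⊆ B ∪ E ∧
      ∃ N0 : ℕ, ∀ N, N0 ≤ N → (cnt E N : ℝ) ≤ ε * N) : Null A := by
  intro ε hε
  obtain ⟨B, E, hB, hA, N1, h1⟩ := h (ε / 2) (by linarith)
  obtain ⟨N2, h2⟩ := hB (ε / 2) (by linarith)
  refine ⟨max N1 N2, fun N hN => ?_⟩
  have h3 := h1 N (le_trans (le_max_left _ _) hN)
  have h4 := h2 N (le_trans (le_max_right _ _) hN)
  have h5 : (cnt A N : ℝ) ≤ cnt B N + cnt E N := by
    exact_mod_cast cnt_union (fun n hn => hA hn) N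
  linarith

/-- finite sets of large primes with large sum of reciprocals -/
theorem exists_primes (K0 : ℕ) (C : ℝ) : ∃ P : Finset ℕ, (∀ q ∈ P, q.Prime ∧ K0 < q) ∧
    C ≤ ∑ q ∈ P, (1 : ℝ) / q := by
  set g : ℕ → ℝ := Set.indicator {p : ℕ | p.Prime} (fun n : ℕ => (1 : ℝ) / n) with hg
  have hnn : ∀ n, 0 ≤ g n := by
    intro n
    rw [hg]
    refine Set.indicator_nonneg (fun n _ => ?_) n
    positivity
  have ht := (not_summable_iff_tendsto_nat_atTop_of_nonneg hnn).1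
    not_summable_one_div_on_primes
  obtain ⟨n, hn⟩ := (Filter.tendsto_atTop.1 ht (C + ∑ i ∈ Finset.range (K0 + 1), g i)).exists
  refine ⟨(Finset.range n).filter (fun q => q.Prime ∧ K0 < q), ?_, ?_⟩
  · intro q hq
    exact (Finset.mem_filter.1 hq).2
  · have h1 : ∑ i ∈ Finset.range n, g i =
        ∑ i ∈ (Finset.range n).filter (fun q => K0 < q), g i +
        ∑ i ∈ (Finset.range n).filter (fun q => ¬ K0 < q), g i :=
      (Finset.sum_filter_add_sum_filter_not _ _ _).symm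
    have h2 : ∑ i ∈ (Finset.range n).filter (fun q => ¬ K0 < q), g i ≤
        ∑ i ∈ Finset.range (K0 + 1), g i := by
      refine Finset.sum_le_sum_of_subset_of_nonneg ?_ (fun i _ _ => hnn i)
      intro i hi
      have := (Finset.mem_filter.1 hi).2
      rw [Finset.mem_range]
      omega
    have h3 : ∑ i ∈ (Finset.range n).filter (fun q => K0 < q), g i =
        ∑ i ∈ (Finset.range n).filter (fun q => q.Prime ∧ K0 < q), (1 : ℝ) / i := by
      rw [hg, Finset.sum_indicator_eq_sum_filter, Finset.filter_filter]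
      refine Finset.sum_congr ?_ (fun _ _ => rfl)
      ext i
      simp only [Finset.mem_filter, Set.mem_ofPred_eq]
      tauto
    rw [← h3]
    linarith

theorem totient_prod (P : Finset ℕ) (hP : ∀ q ∈ P, q.Prime) :
    ((∏ q ∈ P, q).totient : ℝ) = (∏ q ∈ P, (1 - 1 / (q : ℝ))) * ((∏ q ∈ P, q : ℕ) : ℝ) := by
  induction P using Finset.induction_on with
  | empty => simp
  | insert a s ha ih =>
    rw [Finset.prod_insert ha, Finset.prod_insert ha]
    have hcop : Nat.Coprime a (∏ q ∈ s, q) := by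
      refine Nat.Coprime.prod_right fun q hq => ?_
      refine (Nat.coprime_primes (hP a (Finset.mem_insert_self _ _))
        (hP q (Finset.mem_insert_of_mem hq))).2 ?_
      rintro rfl
      exact ha hq
    rw [Nat.totient_mul hcop, Nat.cast_mul, ih (fun q hq => hP q (Finset.mem_insert_of_mem hq)),
      Nat.totient_prime (hP a (Finset.mem_insert_self _ _)), Nat.cast_mul]
    have ha1 : 1 ≤ a := (hP a (Finset.mem_insert_self _ _)).one_lt.le
    have ha0 : (a : ℝ) ≠ 0 := by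
      have : 0 < a := ha1
      positivity
    rw [Nat.cast_sub ha1]
    field_simp
    ring

theorem cnt_coprime (P : Finset ℕ) (hP : ∀ q ∈ P, q.Prime) (E : Set ℕ)
    (hE : ∀ n ∈ E, ∀ q ∈ P, ¬ q ∣ n) (N : ℕ) :
    cnt E N ≤ (∏ q ∈ P, q).totient * (N / (∏ q ∈ P, q) + 1) := by
  have hQpos : 0 < ∏ q ∈ P, q := Finset.prod_pos fun q hq => (hP q hq).pos
  refine le_trans ?_ (Nat.Ico_filter_coprime_le 0 N hQpos.ne')
  unfold cnt
  apply Finset.card_le_card
  intro n hn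
  rw [Finset.mem_filter] at hn ⊢
  refine ⟨?_, ?_⟩
  · rw [Finset.mem_Ico]
    have := Finset.mem_range.1 hn.1
    omega
  · refine Nat.Coprime.prod_left fun q hq => ?_
    exact (Nat.Prime.coprime_iff_not_dvd (hP q hq)).2 (hE n hn.2 q hq)

theorem sieve (K0 : ℕ) (ε : ℝ) (hε : 0 < ε) : ∃ P : Finset ℕ, (∀ q ∈ P, q.Prime ∧ K0 < q) ∧
    ∃ N0 : ℕ, ∀ N, N0 ≤ N → (cnt {n | ∀ q ∈ P, ¬ q ∣ n} N : ℝ) ≤ ε * N := by
  obtain ⟨P, hP, hC⟩ := exists_primes K0 (-Real.log (ε / 2))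
  refine ⟨P, hP, ?_⟩
  set Q := ∏ q ∈ P, q with hQ
  have hQpos : 0 < Q := Finset.prod_pos fun q hq => (hP q hq).1.pos
  have hprod : (∏ q ∈ P, (1 - 1 / (q : ℝ))) ≤ ε / 2 := by
    have h1 : (∏ q ∈ P, (1 - 1 / (q : ℝ))) ≤ ∏ q ∈ P, Real.exp (-(1 / (q : ℝ))) := by
      refine Finset.prod_le_prod ?_ ?_
      · intro q hq
        have : (1 : ℝ) < q := by exact_mod_cast (hP q hq).1.one_lt
        have h2 : 1 / (q : ℝ) ≤ 1 := by
          rw [div_le_one (by linarith)]
          exact this.le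
        linarith
      · intro q _
        have := Real.add_one_le_exp (-(1 / (q : ℝ)))
        linarith
    refine h1.trans ?_
    rw [← Real.exp_sum, Finset.sum_neg_distrib]
    calc Real.exp (-∑ q ∈ P, 1 / (q : ℝ)) ≤ Real.exp (Real.log (ε / 2)) :=
          Real.exp_le_exp.2 (by linarith)
      _ = ε / 2 := Real.exp_log (by linarith)
  obtain ⟨N0, hN0⟩ := exists_nat_ge (2 * (Q.totient : ℝ) / ε)
  refine ⟨N0, fun N hN => ?_⟩
  have hc : cnt {n | ∀ q ∈ P, ¬ q ∣ n} N ≤ Q.totient * (N / Q + 1) := by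
    exact cnt_coprime P (fun q hq => (hP q hq).1) _ (fun n hn => hn) N
  have hQr : (0 : ℝ) < Q := by exact_mod_cast hQpos
  have h2 : ((Q.totient * (N / Q + 1) : ℕ) : ℝ) ≤ Q.totient * ((N : ℝ) / Q + 1) := by
    push_cast
    have h3 : ((N / Q : ℕ) : ℝ) ≤ (N : ℝ) / Q := Nat.cast_div_le
    have h4 : (0 : ℝ) ≤ Q.totient := Nat.cast_nonneg _
    nlinarith
  have h5 : (cnt {n | ∀ q ∈ P, ¬ q ∣ n} N : ℝ) ≤ Q.totient * ((N : ℝ) / Q + 1) :=
    le_trans (by exact_mod_cast hc) h2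
  refine h5.trans ?_
  have h6 := totient_prod P (fun q hq => (hP q hq).1)
  rw [← hQ] at h6
  have h7 : (Q.totient : ℝ) * ((N : ℝ) / Q) = (∏ q ∈ P, (1 - 1 / (q : ℝ))) * N := by
    rw [h6]
    field_simp
  have h8 : (Q.totient : ℝ) ≤ ε / 2 * N := by
    have h9 : 2 * (Q.totient : ℝ) / ε ≤ N := hN0.trans (by exact_mod_cast hN)
    rw [div_le_iff₀ hε] at h9
    linarith
  have h10 : (∏ q ∈ P, (1 - 1 / (q : ℝ))) * N ≤ ε / 2 * N :=
    mul_le_mul_of_nonneg_right hprod (Nat.cast_nonneg N)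
  rw [mul_add, mul_one, h7]
  linarith

end Pool.Agent.H173L
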