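import Pool.Agent.H173L.Comp4
import Pool.Agent.H173L.Final

/-!
# The exact composition is 4-homogeneous
-/

set_option autoImplicit false

namespace Pool.Agent.H173L

open Finset
open scoped Classical

theorem count_block {A X : Type} [Fintype A] [Fintype X] {L : X → X → X} {B : A → A → A}
    {e1 e2 : A → X} (he1 : Function.Injective e1) (he2 : Function.Injective e2) (a b : A)
    (h : ∀ a' b', Quad B a b a' b' → Quad L (e1 a) (e2 b) (e1 a') (e2 b'))
    (h' : ∀ r' c', Quad L (e1 a) (e2 b) r' c' → ∃ a' b', r' = e1 a' ∧ c' = e2 b' ∧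
      Quad B a b a' b') :
    ((Finset.univ : Finset (X × X)).filter (fun p => Quad L (e1 a) (e2 b) p.1 p.2)).card =
    ((Finset.univ : Finset (A × A)).filter (fun p => Quad B a b p.1 p.2)).card := by
  symm
  refine Finset.card_bij (fun p _ => (e1 p.1, e2 p.2)) ?_ ?_ ?_
  · intro p hp
    rw [Finset.mem_filter] at hp ⊢
    exact ⟨Finset.mem_univ _, h _ _ hp.2⟩
  · rintro ⟨p, p'⟩ _ ⟨q, q'⟩ _ hh
    obtain ⟨h1, h2⟩ := Prod.mk.inj hh
    exact Prod.ext (he1 h1) (he2 h2)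
  · rintro ⟨p, p'⟩ hp
    rw [Finset.mem_filter] at hp
    obtain ⟨a', b', h1, h2, h3⟩ := h' _ _ hp.2
    simp only at h1 h2
    exact ⟨(a', b'), Finset.mem_filter.2 ⟨Finset.mem_univ _, h3⟩, by rw [h1, h2]⟩

/-- a 4-homogeneous subsquare of a 4-homogeneous square is closed under intercalates -/
theorem closed_sub {X Y : Type} [Fintype X] [Fintype Y] {L : X → X → X} {C : Y → Y → Y}
    {s : Y → X} (hL : IsHom4 X L) (hC : IsHom4 Y C) (hs : Function.Injective s)
    (he : ∀ u v, L (s u) (s v) = s (C u v)) {u v : Y} {r c : X} (hq : Quad L (s u) (s v) r c) :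
    ∃ u' v', r = s u' ∧ c = s v' := by
  set A := (Finset.univ : Finset (Y × Y)).filter (fun p => Quad C u v p.1 p.2)
  set B := (Finset.univ : Finset (X × X)).filter (fun p => Quad L (s u) (s v) p.1 p.2)
  have hsub : A.map ⟨fun p : Y × Y => (s p.1, s p.2), fun p q hpq => by
      obtain ⟨h1, h2⟩ := Prod.mk.inj hpq
      exact Prod.ext (hs h1) (hs h2)⟩ ⊆ B := by
    intro p hp
    rw [Finset.mem_map] at hp
    obtain ⟨q, hq1, rfl⟩ := hp
    have h1 := (Finset.mem_filter.1 hq1).2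
    refine Finset.mem_filter.2 ⟨Finset.mem_univ _, ?_⟩
    refine ⟨fun hh => h1.1 (hs hh), fun hh => h1.2.1 (hs hh), ?_, ?_⟩
    · simp only [Function.Embedding.coeFn_mk]
      rw [he, he, h1.2.2.1]
    · simp only [Function.Embedding.coeFn_mk]
      rw [he, he, h1.2.2.2]
  have hcard : B.card ≤ (A.map ⟨fun p : Y × Y => (s p.1, s p.2), fun p q hpq => by
      obtain ⟨h1, h2⟩ := Prod.mk.inj hpq
      exact Prod.ext (hs h1) (hs h2)⟩).card := by
    rw [Finset.card_map, hL.2, hC.2]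
  have heq := Finset.eq_of_subset_of_card_le hsub hcard
  have hmem : (r, c) ∈ B := Finset.mem_filter.2 ⟨Finset.mem_univ _, hq⟩
  rw [← heq, Finset.mem_map] at hmem
  obtain ⟨q, _, hq2⟩ := hmem
  obtain ⟨h1, h2⟩ := Prod.mk.inj hq2
  exact ⟨q.1, q.2, h1.symm, h2.symm⟩

section
variable {R T K Y : Type} [CommRing R] {d : T → R} {Z : K → K → K}
  {P : K ⊕ Y → K ⊕ Y → K ⊕ Y} {C : Y × T → Y × T → Y × T}

omit [CommRing R] in
theorem E3_injective (x : R) (h : T) :
    Function.Injective (E3 x h : K ⊕ Y → (R × K) ⊕ (Y × T)) :=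
  fun _ _ hh => (E3_inj hh).1

theorem nh_of {ρ ρ' γ γ' : K ⊕ Y} (h : ((∃ i, ρ = Sum.inl i) ∧ ∃ i', ρ' = Sum.inl i') ∨
      ((∃ j, γ = Sum.inl j) ∧ ∃ j', γ' = Sum.inl j')) :
    NH ρ γ ∧ NH ρ' γ' ∧ NH ρ γ' ∧ NH ρ' γ := by
  rcases h with ⟨⟨i, rfl⟩, ⟨i', rfl⟩⟩ | ⟨⟨i, rfl⟩, ⟨i', rfl⟩⟩ <;>
    refine ⟨?_, ?_, ?_, ?_⟩ <;> rintro ⟨⟨u, hu⟩, ⟨v, hv⟩⟩ <;> simp at hu hv

/-- quads in a bordered block -/
theorem quad_block (D : Dat R T K Y d Z P C) {x : R} {h : T} {ρ γ ρ' γ' : K ⊕ Y}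
    (hn : NH ρ γ ∧ NH ρ' γ' ∧ NH ρ γ' ∧ NH ρ' γ) :
    Quad (comp3 d Z P C) (E3 x h ρ) (E3 (x + d h) h γ) (E3 x h ρ') (E3 (x + d h) h γ') ↔
      Quad P ρ γ ρ' γ' := by
  unfold Quad
  rw [c3_on D.inj Z P C x h _ _ hn.1, c3_on D.inj Z P C x h _ _ hn.2.1,
    c3_on D.inj Z P C x h _ _ hn.2.2.1, c3_on D.inj Z P C x h _ _ hn.2.2.2]
  rw [(E3_injective _ _).eq_iff, (E3_injective _ _).eq_iff, (E3_injective _ _).ne_iff,
    (E3_injective _ _).ne_iff]

variable [Fintype R] [Fintype T] [Fintype K] [Fintype Y]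

theorem c3_hom (D : Dat R T K Y d Z P C) (hZ : IsHom4 K Z) (hP : IsHom4 (K ⊕ Y) P)
    (hC : IsHom4 (Y × T) C) : IsHom4 ((R × K) ⊕ (Y × T)) (comp3 d Z P C) := by
  refine ⟨c3_latin D, ?_⟩
  -- bordered cells
  have hb : ∀ (x : R) (h : T) (ρ γ : K ⊕ Y), NH ρ γ →
      ((Finset.univ : Finset (((R × K) ⊕ (Y × T)) × ((R × K) ⊕ (Y × T)))).filter
      (fun p => Quad (comp3 d Z P C) (E3 x h ρ) (E3 (x + d h) h γ) p.1 p.2)).card = 4 := by
    intro x h ρ γ hn
    rw [← hP.2 ρ γ]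
    refine count_block (E3_injective x h) (E3_injective (x + d h) h) ρ γ ?_ ?_
    · intro ρ' γ' hq
      exact (quad_block D ⟨hn, D.cl _ _ _ _ hq hn⟩).2 hq
    · intro r' c' hq
      rcases qc_all D hq with ⟨x0, y0, i, i', j, j', h1, h2, h3, h4⟩ |
        ⟨x0, h0, ρ0, ρ0', γ0, γ0', h1, h2, h3, h4, h5⟩ | ⟨⟨p, h1⟩, ⟨q, h2⟩, _⟩
      · have g1 : E3 x h ρ = (E3 x0 h (Sum.inl i) : (R × K) ⊕ (Y × T)) := h1
        have g2 : E3 (x + d h) h γ = (E3 y0 h (Sum.inl j) : (R × K) ⊕ (Y × T)) := h3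
        obtain ⟨a1, _, a3⟩ := E3_inj g1
        obtain ⟨b1, _, b3⟩ := E3_inj g2
        have hx : x = x0 := a3 i a1
        have hy : x + d h = y0 := b3 j b1
        subst hx
        have e1 : r' = E3 x h (Sum.inl i') := h2
        have e2 : c' = E3 (x + d h) h (Sum.inl j') := by
          rw [h4, hy]
          rfl
        refine ⟨Sum.inl i', Sum.inl j', e1, e2, ?_⟩
        rw [e1, e2, a1, b1] at hq
        rw [a1, b1]
        exact (quad_block D (nh_of (Or.inl ⟨⟨i, rfl⟩, ⟨i', rfl⟩⟩))).1 hq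
      · obtain ⟨a1, a2, a3⟩ := E3_inj h1
        obtain ⟨b1, b2, b3⟩ := E3_inj h3
        have hxh : x = x0 ∧ h = h0 := by
          rcases ρ with i | u
          · have hx := a3 i rfl
            subst hx
            rcases γ with j | v
            · have := b3 j rfl
              exact ⟨rfl, D.inj (add_left_cancel this)⟩
            · exact ⟨rfl, b2 v rfl⟩
          · have hh := a2 u rfl
            subst hh
            rcases γ with j | v
            · have := b3 j rfl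
              exact ⟨add_right_cancel this, rfl⟩
            · exact absurd ⟨⟨u, rfl⟩, ⟨v, rfl⟩⟩ hn
        obtain ⟨rfl, rfl⟩ := hxh
        refine ⟨ρ0', γ0', h2, h4, ?_⟩
        rw [h2, h4, a1, b1] at hq
        rw [a1, b1]
        exact (quad_block D (nh_of h5)).1 hq
      · exfalso
        apply hn
        have g1 : E3 x h ρ = (E3 x p.2 (Sum.inr p.1) : (R × K) ⊕ (Y × T)) := h1
        have g2 : E3 (x + d h) h γ = (E3 x q.2 (Sum.inr q.1) : (R × K) ⊕ (Y × T)) := h2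
        exact ⟨⟨_, (E3_inj g1).1⟩, ⟨_, (E3_inj g2).1⟩⟩
  intro r c
  rcases r with ⟨x, i⟩ | ⟨u, h⟩
  · rcases col3_cases d x c with ⟨h, γ, rfl⟩ | ⟨y, j, rfl, hl⟩
    · refine hb x h (Sum.inl i) γ ?_
      rintro ⟨⟨u, hu⟩, _⟩
      simp at hu
    · -- plain cell
      have he1 : Function.Injective (fun i : K => (Sum.inl (x, i) : (R × K) ⊕ (Y × T))) :=
        fun a b hh => (Prod.mk.inj (Sum.inl_injective hh)).2
      have he2 : Function.Injective (fun i : K => (Sum.inl (y, i) : (R × K) ⊕ (Y × T))) :=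
        fun a b hh => (Prod.mk.inj (Sum.inl_injective hh)).2
      have hqq : ∀ i i' j j' : K, Quad (comp3 d Z P C) (Sum.inl (x, i)) (Sum.inl (y, j))
          (Sum.inl (x, i')) (Sum.inl (y, j')) ↔ Quad Z i j i' j' := by
        intro i i' j j'
        unfold Quad
        rw [c3_off Z P C x y _ _ hl, c3_off Z P C x y _ _ hl, c3_off Z P C x y _ _ hl,
          c3_off Z P C x y _ _ hl]
        simp
      rw [← hZ.2 i j]
      refine count_block he1 he2 i j ?_ ?_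
      · intro i' j' hq
        exact (hqq _ _ _ _).2 hq
      · intro r' c' hq
        rcases qc_all D hq with ⟨x0, y0, i0, i', j0, j', h1, h2, h3, h4⟩ |
          ⟨x0, h0, ρ0, ρ0', γ0, γ0', h1, h2, h3, h4, h5⟩ | ⟨⟨p, h1⟩, ⟨q, h2⟩, _⟩
        · simp only [Sum.inl.injEq, Prod.mk.injEq] at h1 h3
          obtain ⟨rfl, rfl⟩ := h1
          obtain ⟨rfl, rfl⟩ := h3
          refine ⟨i', j', h2, h4, ?_⟩
          rw [h2, h4] at hq
          exact (hqq _ _ _ _).1 hq
        · exfalso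
          have g1 : E3 x h0 (Sum.inl i) = (E3 x0 h0 ρ0 : (R × K) ⊕ (Y × T)) := h1
          have g2 : E3 y h0 (Sum.inl j) = (E3 (x0 + d h0) h0 γ0 : (R × K) ⊕ (Y × T)) := h3
          have hx := (E3_inj g1).2.2 i rfl
          have hy := (E3_inj g2).2.2 j rfl
          apply hl
          refine ⟨h0, ?_⟩
          rw [hy, hx]
          ring
        · simp at h1
  · rcases c with ⟨y, j⟩ | ⟨v, g⟩
    · have := hb (y - d h) h (Sum.inr u) (Sum.inl j) (by
        rintro ⟨_, ⟨v, hv⟩⟩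
        simp at hv)
      rw [sub_add_cancel] at this
      exact this
    · -- hole cell
      rw [← hC.2 (u, h) (v, g)]
      refine count_block (e1 := fun p => Sum.inr p) (e2 := fun p => Sum.inr p)
        Sum.inr_injective Sum.inr_injective (u, h) (v, g) ?_ ?_
      · intro p q hq
        refine ⟨fun hh => hq.1 (Sum.inr_injective hh), fun hh => hq.2.1 (Sum.inr_injective hh),
          ?_, ?_⟩
        · simp only [comp3]
          rw [hq.2.2.1]
        · simp only [comp3]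
          rw [hq.2.2.2]
      · intro r' c' hq
        rcases qc_all D hq with ⟨x0, y0, i0, i', j0, j', h1, h2, h3, h4⟩ |
          ⟨x0, h0, ρ0, ρ0', γ0, γ0', h1, h2, h3, h4, h5⟩ | ⟨_, _, ⟨p, rfl⟩, ⟨q, rfl⟩⟩
        · simp at h1
        · exfalso
          have g1 : E3 x0 h (Sum.inr u) = (E3 x0 h0 ρ0 : (R × K) ⊕ (Y × T)) := h1
          have g2 : E3 x0 g (Sum.inr v) = (E3 (x0 + d h0) h0 γ0 : (R × K) ⊕ (Y × T)) := h3
          exact (nh_of h5).1 ⟨⟨_, (E3_inj g1).1.symm⟩, ⟨_, (E3_inj g2).1.symm⟩⟩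
        · refine ⟨p, q, rfl, rfl, ?_⟩
          obtain ⟨a1, a2, a3, a4⟩ := hq
          simp only [comp3, Sum.inr.injEq] at a3 a4
          exact ⟨fun hh => a1 (by rw [hh]), fun hh => a2 (by rw [hh]), a3, a4⟩

end

end Pool.Agent.H173L
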