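import Mathlib

/-!
# Intercalate systems on latin squares and affine twists (helper173, problem MP_7e41f2_co)
-/

set_option autoImplicit false

namespace Pool.Agent.H173L

open Finset
open scoped Classical

/-- latin square on a type -/
def Latin {X : Type} (L : X → X → X) : Prop :=
  (∀ r, Function.Injective (L r)) ∧ ∀ c, Function.Injective fun r => L r c

/-- the rows `r, r'` and the columns `c, c'` carry an intercalate -/
def Quad {X : Type} (L : X → X → X) (r c r' c' : X) : Prop :=
  r ≠ r' ∧ c ≠ c' ∧ L r c = L r' c' ∧ L r c' = L r' c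

section
variable {X : Type} {L : X → X → X} {r c r' c' : X}

theorem Quad.swap (h : Quad L r c r' c') : Quad L r' c' r c :=
  ⟨h.1.symm, h.2.1.symm, h.2.2.1.symm, h.2.2.2.symm⟩

theorem Quad.col (h : Quad L r c r' c') : Quad L r c' r' c :=
  ⟨h.1, h.2.1.symm, h.2.2.2, h.2.2.1⟩

theorem Quad.row (h : Quad L r c r' c') : Quad L r' c r c' :=
  ⟨h.1.symm, h.2.1, h.2.2.2.symm, h.2.2.1.symm⟩

/-- in a latin square the second column of an intercalate is determined by the second row -/
theorem Quad.col_unique (hL : Latin L) {c'' : X} (h : Quad L r c r' c') (h' : Quad L r c r' c'') :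
    c' = c'' := by
  apply hL.1 r'
  rw [← h.2.2.1, ← h'.2.2.1]

end

/-- an intercalate system: the intercalates are coloured by `f`, the colour classes are matchings,
the weights of the intercalates through each cell add up to `4` -/
structure Sys (X : Type) [Fintype X] (L : X → X → X) (ι : Type) (w : ι → ℕ)
    (f : X → X → X → X → ι) : Prop where
  lat : Latin L
  s1 : ∀ r c r' c', Quad L r c r' c' → f r c r' c' = f r' c' r c
  s2 : ∀ r c r' c', Quad L r c r' c' → f r c r' c' = f r c' r' c
  mt : ∀ r c r1 c1 r2 c2, Quad L r c r1 c1 → Quad L r c r2 c2 →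
    f r c r1 c1 = f r c r2 c2 → r1 = r2
  tot : ∀ r c, (∑ p : X × X, if Quad L r c p.1 p.2 then w (f r c p.1 p.2) else 0) = 4

/-- the affine twist of a latin square -/
def tw {X R : Type} [CommRing R] (L : X → X → X) (β γ : X → X → R) :
    X × R → X × R → X × R :=
  fun a b => (L a.1 b.1, a.2 + β a.1 b.1 * b.2 + γ a.1 b.1)

section twist
variable {X R : Type} [CommRing R] {L : X → X → X} {β γ : X → X → R}

theorem tw_latin (hL : Latin L) (hβ : ∀ x y, IsUnit (β x y)) : Latin (tw L β γ) := by
  constructor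
  · rintro ⟨x, i⟩ ⟨y, j⟩ ⟨y', j'⟩ h
    simp only [tw, Prod.mk.injEq] at h
    obtain ⟨h1, h2⟩ := h
    have hy : y = y' := hL.1 x h1
    subst hy
    have h3 : β x y * j = β x y * j' := by
      have := add_right_cancel h2
      exact add_left_cancel this
    rw [(hβ x y).mul_left_cancel h3]
  · rintro ⟨y, j⟩ ⟨x, i⟩ ⟨x', i'⟩ h
    simp only [tw, Prod.mk.injEq] at h
    obtain ⟨h1, h2⟩ := h
    have hx : x = x' := hL.2 y h1
    subst hx
    have h3 : i = i' := by
      have := add_right_cancel h2
      exact add_right_cancel this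
    rw [h3]

theorem tw_quad (hL : Latin L) (hβ : ∀ x y, IsUnit (β x y)) (h2 : IsUnit (2 : R))
    {x x' y y' : X} {i i' j j' : R} :
    Quad (tw L β γ) (x, i) (y, j) (x', i') (y', j') ↔
      Quad L x y x' y' ∧ i + β x y * j + γ x y = i' + β x' y' * j' + γ x' y' ∧
        i + β x y' * j' + γ x y' = i' + β x' y * j + γ x' y := by
  constructor
  · rintro ⟨h1, hc, h3, h4⟩
    simp only [tw, Prod.mk.injEq] at h3 h4
    obtain ⟨h3, h3'⟩ := h3
    obtain ⟨h4, h4'⟩ := h4
    have hx : x ≠ x' := by
      rintro rfl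
      have hy : y = y' := hL.1 x h3
      subst hy
      have h5 : (2 : R) * (β x y * j) = 2 * (β x y * j') := by
        have h6 : i + β x y * j = i' + β x y * j' := add_right_cancel h3'
        have h7 : i + β x y * j' = i' + β x y * j := add_right_cancel h4'
        linear_combination h6 - h7
      have h6 := (hβ x y).mul_left_cancel (h2.mul_left_cancel h5)
      exact hc (by rw [h6])
    have hy : y ≠ y' := by
      rintro rfl
      exact hx (hL.2 y h3)
    exact ⟨⟨hx, hy, h3, h4⟩, h3', h4'⟩
  · rintro ⟨⟨hx, hy, h3, h4⟩, h3', h4'⟩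
    refine ⟨fun h => hx (congrArg Prod.fst h), fun h => hy (congrArg Prod.fst h), ?_, ?_⟩
    · simp only [tw, Prod.mk.injEq]
      exact ⟨h3, h3'⟩
    · simp only [tw, Prod.mk.injEq]
      exact ⟨h4, h4'⟩

end twist

/-- the two equations of a lifted intercalate -/
def Lift {X R : Type} [CommRing R] (β γ : X → X → R) (x y : X) (i j : R) (s : X × X)
    (t : R × R) : Prop :=
  i + β x y * j + γ x y = t.1 + β s.1 s.2 * t.2 + γ s.1 s.2 ∧
    i + β x s.2 * t.2 + γ x s.2 = t.1 + β s.1 y * j + γ s.1 y

theorem lift_unique {X R : Type} [CommRing R] {β γ : X → X → R} {x y : X} {i j : R} {s : X × X}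
    (hu : IsUnit (β x s.2 + β s.1 s.2)) :
    ∃ t0 : R × R, ∀ t, Lift β γ x y i j s t ↔ t = t0 := by
  obtain ⟨u, hu⟩ := hu
  set j0 : R := (↑u⁻¹ : R) * ((β x y + β s.1 y) * j + γ x y + γ s.1 y - γ x s.2 - γ s.1 s.2)
    with hj0
  have hj : (β x s.2 + β s.1 s.2) * j0 =
      (β x y + β s.1 y) * j + γ x y + γ s.1 y - γ x s.2 - γ s.1 s.2 := by
    rw [hj0, ← hu, ← mul_assoc, Units.mul_inv, one_mul]
  refine ⟨(i + β x y * j + γ x y - β s.1 s.2 * j0 - γ s.1 s.2, j0), ?_⟩
  rintro ⟨i', j'⟩
  unfold Lift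
  constructor
  · rintro ⟨h1, h2⟩
    simp only at h1 h2
    have h3 : (β x s.2 + β s.1 s.2) * j' = (β x s.2 + β s.1 s.2) * j0 := by
      rw [hj]
      linear_combination h2 - h1
    have h4 : j' = j0 := by
      rw [← hu] at h3
      exact u.isUnit.mul_left_cancel h3
    subst h4
    refine Prod.ext ?_ rfl
    simp only
    linear_combination -h1
  · intro h
    obtain ⟨h1, h2⟩ := Prod.mk.inj h
    subst h1
    subst h2
    refine ⟨by ring, ?_⟩
    simp only
    linear_combination hj

theorem sum_prod4 {X R : Type} [Fintype X] [Fintype R] (F : (X × R) × (X × R) → ℕ) :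
    ∑ p, F p = ∑ s : X × X, ∑ t : R × R, F ((s.1, t.1), (s.2, t.2)) := by
  rw [← Fintype.sum_prod_type' (f := fun (s : X × X) (t : R × R) => F ((s.1, t.1), (s.2, t.2)))]
  exact (Fintype.sum_equiv (Equiv.prodProdProdComm X X R R) _ _ (fun _ => rfl)).symm

end Pool.Agent.H173L
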