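import Pool.Agent.H173L.Core

/-!
# Weighted intercalate covers
-/

set_option autoImplicit false

namespace Pool.Agent.H173L

open Finset
open scoped Classical

/-- the cell `(x, y)` is a corner of the rectangle with rows `a, c` and columns `b, d` -/
def InC {X : Type} (x y a b c d : X) : Prop := (x = a ∨ x = c) ∧ (y = b ∨ y = d)

/-- a family of intercalates covering every cell four times -/
def Cover (X : Type) (L : X → X → X) : Prop :=
  ∃ (J : Type) (_ : Fintype J) (a b c d : J → X), (∀ j, Quad L (a j) (b j) (c j) (d j)) ∧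
    ∀ x y, ((Finset.univ : Finset J).filter
      (fun j => InC x y (a j) (b j) (c j) (d j))).card = 4

theorem pair_other {X : Type} {r r1 r2 : X} (h1 : r ≠ r1)
    (h : ({r, r1} : Finset X) = {r, r2}) : r1 = r2 := by
  have : r1 ∈ ({r, r2} : Finset X) := by
    rw [← h]
    simp
  rw [Finset.mem_insert, Finset.mem_singleton] at this
  rcases this with h2 | h2
  · exact absurd h2.symm h1
  · exact h2

theorem card_filter_sum {α β : Type} [Fintype α] [Fintype β] (p : α ⊕ β → Prop)
    [DecidablePred p] : ((Finset.univ : Finset (α ⊕ β)).filter p).card =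
    ((Finset.univ : Finset α).filter (fun a => p (Sum.inl a))).card +
      ((Finset.univ : Finset β).filter (fun b => p (Sum.inr b))).card := by
  rw [Finset.card_filter, Finset.card_filter, Finset.card_filter, Fintype.sum_sum_type]

theorem card_filter_single {α J : Type} [Fintype α] [Fintype J] (p : α × J → Prop)
    [DecidablePred p] (a0 : α) (q : J → Prop) [DecidablePred q]
    (h : ∀ a j, p (a, j) ↔ a = a0 ∧ q j) :
    ((Finset.univ : Finset (α × J)).filter p).card =
      ((Finset.univ : Finset J).filter q).card := by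
  symm
  refine Finset.card_bij (fun j _ => (a0, j)) ?_ ?_ ?_
  · intro j hj
    rw [Finset.mem_filter] at hj ⊢
    exact ⟨Finset.mem_univ _, (h a0 j).2 ⟨rfl, hj.2⟩⟩
  · intro j _ j' _ hh
    exact (Prod.mk.inj hh).2
  · rintro ⟨a, j⟩ hj
    rw [Finset.mem_filter] at hj
    obtain ⟨h1, h2⟩ := (h a j).1 hj.2
    subst h1
    exact ⟨j, Finset.mem_filter.2 ⟨Finset.mem_univ _, h2⟩, rfl⟩

theorem card_filter_none {J : Type} [Fintype J] (p : J → Prop) [DecidablePred p]
    (h : ∀ j, ¬ p j) : ((Finset.univ : Finset J).filter p).card = 0 := by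
  rw [Finset.card_eq_zero, Finset.filter_eq_empty_iff]
  intro j _
  exact h j

/-- a cover gives an intercalate system -/
theorem Cover.sys {X : Type} [Fintype X] {L : X → X → X} (hL : Latin L) (h : Cover X L) :
    ∃ (w : Finset X × Finset X → ℕ) (f : X → X → X → X → Finset X × Finset X),
      Sys X L (Finset X × Finset X) w f := by
  obtain ⟨J, _, a, b, c, d, hq, hc⟩ := h
  refine ⟨fun S => ((Finset.univ : Finset J).filter
    (fun j => (({a j, c j} : Finset X), ({b j, d j} : Finset X)) = S)).card,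
    fun r s r' s' => ({r, r'}, {s, s'}), ?_⟩
  constructor
  · exact hL
  · intro r s r' s' _
    rw [Finset.pair_comm r r', Finset.pair_comm s s']
  · intro r s r' s' _
    rw [Finset.pair_comm s s']
  · intro r s r1 s1 r2 s2 h1 _ hf
    exact pair_other h1.1 (Prod.mk.inj hf).1
  · intro r s
    rw [← hc r s, Finset.card_filter]
    have e1 : ∀ p : X × X, (if Quad L r s p.1 p.2 then ((Finset.univ : Finset J).filter
        (fun j => (({a j, c j} : Finset X), ({b j, d j} : Finset X)) =
          (({r, p.1} : Finset X), ({s, p.2} : Finset X)))).card else 0) =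
        ∑ j : J, if Quad L r s p.1 p.2 ∧ (({a j, c j} : Finset X), ({b j, d j} : Finset X)) =
          (({r, p.1} : Finset X), ({s, p.2} : Finset X)) then 1 else 0 := by
      intro p
      by_cases hp : Quad L r s p.1 p.2
      · rw [if_pos hp, Finset.card_filter]
        refine Finset.sum_congr rfl fun j _ => ?_
        by_cases hj : (({a j, c j} : Finset X), ({b j, d j} : Finset X)) =
          (({r, p.1} : Finset X), ({s, p.2} : Finset X))
        · rw [if_pos hj, if_pos ⟨hp, hj⟩]
        · rw [if_neg hj, if_neg (fun h => hj h.2)]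
      · rw [if_neg hp]
        symm
        refine Finset.sum_eq_zero fun j _ => ?_
        rw [if_neg (fun h => hp h.1)]
    rw [Finset.sum_congr rfl fun p _ => e1 p, Finset.sum_comm]
    refine Finset.sum_congr rfl fun j _ => ?_
    by_cases hj : InC r s (a j) (b j) (c j) (d j)
    · rw [if_pos hj]
      have hex : ∃ p0 : X × X, Quad L r s p0.1 p0.2 ∧
          (({a j, c j} : Finset X), ({b j, d j} : Finset X)) =
          (({r, p0.1} : Finset X), ({s, p0.2} : Finset X)) := by
        obtain ⟨h1 | h1, h2 | h2⟩ := hj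
        · exact ⟨(c j, d j), by rw [h1, h2]; exact hq j, by rw [h1, h2]⟩
        · exact ⟨(c j, b j), by rw [h1, h2]; exact (hq j).col,
            by rw [h1, h2, Finset.pair_comm (b j) (d j)]⟩
        · exact ⟨(a j, d j), by rw [h1, h2]; exact (hq j).row,
            by rw [h1, h2, Finset.pair_comm (a j) (c j)]⟩
        · exact ⟨(a j, b j), by rw [h1, h2]; exact (hq j).swap,
            by rw [h1, h2, Finset.pair_comm (a j) (c j), Finset.pair_comm (b j) (d j)]⟩
      obtain ⟨p0, h1, h2⟩ := hex
      rw [Finset.sum_eq_single p0]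
      · rw [if_pos ⟨h1, h2⟩]
      · rintro p _ hp
        rw [if_neg]
        rintro ⟨h3, h4⟩
        rw [h2] at h4
        obtain ⟨h5, h6⟩ := Prod.mk.inj h4
        exact hp (Prod.ext (pair_other h1.1 h5).symm (pair_other h1.2.1 h6).symm)
      · intro hh
        exact absurd (Finset.mem_univ _) hh
    · rw [if_neg hj]
      refine Finset.sum_eq_zero fun p _ => ?_
      rw [if_neg]
      rintro ⟨_, h4⟩
      obtain ⟨h5, h6⟩ := Prod.mk.inj h4
      apply hj
      constructor
      · have : r ∈ ({a j, c j} : Finset X) := by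
          rw [h5]
          simp
        simpa using this
      · have : s ∈ ({b j, d j} : Finset X) := by
          rw [h6]
          simp
        simpa using this

/-- direct product with an arbitrary square -/
def prodL {X Y : Type} (L : X → X → X) (A : Y → Y → Y) : X × Y → X × Y → X × Y :=
  fun p q => (L p.1 q.1, A p.2 q.2)

theorem prodL_latin {X Y : Type} {L : X → X → X} {A : Y → Y → Y} (hL : Latin L) (hA : Latin A) :
    Latin (prodL L A) := by
  constructor
  · rintro ⟨x, u⟩ ⟨y, v⟩ ⟨y', v'⟩ h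
    obtain ⟨h1, h2⟩ := Prod.mk.inj h
    exact Prod.ext (hL.1 x h1) (hA.1 u h2)
  · rintro ⟨y, v⟩ ⟨x, u⟩ ⟨x', u'⟩ h
    obtain ⟨h1, h2⟩ := Prod.mk.inj h
    exact Prod.ext (hL.2 y h1) (hA.2 v h2)

theorem Cover.prod {X Y : Type} [Fintype Y] {L : X → X → X} {A : Y → Y → Y}
    (h : Cover X L) : Cover (X × Y) (prodL L A) := by
  obtain ⟨J, _, a, b, c, d, hq, hc⟩ := h
  refine ⟨(Y × Y) × J, inferInstance, fun j => (a j.2, j.1.1), fun j => (b j.2, j.1.2),
    fun j => (c j.2, j.1.1), fun j => (d j.2, j.1.2), ?_, ?_⟩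
  · rintro ⟨⟨u, v⟩, j⟩
    obtain ⟨h1, h2, h3, h4⟩ := hq j
    refine ⟨fun h => h1 (Prod.mk.inj h).1, fun h => h2 (Prod.mk.inj h).1, ?_, ?_⟩
    · simp only [prodL]
      rw [h3]
    · simp only [prodL]
      rw [h4]
  · rintro ⟨x, u⟩ ⟨y, v⟩
    rw [← hc x y]
    refine card_filter_single _ (u, v) _ ?_
    rintro ⟨u', v'⟩ j
    simp only [InC, Prod.mk.injEq]
    constructor
    · rintro ⟨h1, h2⟩
      rcases h1 with ⟨h1, h3⟩ | ⟨h1, h3⟩ <;> rcases h2 with ⟨h2, h4⟩ | ⟨h2, h4⟩ <;>
        simp [h1, h2, h3, h4]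
    · rintro ⟨⟨rfl, rfl⟩, h1, h2⟩
      exact ⟨h1.imp (fun h => ⟨h, rfl⟩) (fun h => ⟨h, rfl⟩),
        h2.imp (fun h => ⟨h, rfl⟩) (fun h => ⟨h, rfl⟩)⟩

end Pool.Agent.H173L
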