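import Pool.Agent.H173L.Faithful

/-!
# 4-homogeneous latin squares exist for almost all orders (weaker form of `AllLarge`)
-/

set_option autoImplicit false

namespace Pool.Agent.H173L

/-- The set of the positive integers `n` such that there is a 4-homogeneous latin square of order
`n` has natural density one. -/
theorem density_one :
    Filter.Tendsto
      (fun N : ℕ => ({n : ℕ | 1 ≤ n ∧ n ≤ N ∧ HasHomogeneous 4 n}.ncard : ℝ) / N)
      Filter.atTop (nhds 1) := by
  classical
  rw [Metric.tendsto_atTop]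
  intro ε hε
  obtain ⟨N0, hN0⟩ := null_all (ε / 4) (by linarith)
  refine ⟨max N0 1, fun N hN => ?_⟩
  have hN1 : 1 ≤ N := le_trans (le_max_right _ _) hN
  have hNr : (0 : ℝ) < N := by exact_mod_cast hN1
  have hset : {n : ℕ | 1 ≤ n ∧ n ≤ N ∧ HasHomogeneous 4 n} =
      (((Finset.Icc 1 N).filter (fun n => HasHomogeneous 4 n) : Finset ℕ) : Set ℕ) := by
    ext n
    simp [and_assoc]
  rw [hset, Set.ncard_coe_finset]
  have h1 := Finset.card_filter_add_card_filter_not (s := Finset.Icc 1 N)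
    (fun n => HasHomogeneous 4 n)
  rw [Nat.card_Icc, Nat.add_sub_cancel] at h1
  have h2 : ((Finset.Icc 1 N).filter (fun n => ¬ HasHomogeneous 4 n)).card ≤
      cnt {n | n ∉ G} (N + 1) := by
    refine card_le_cnt _ _ _ fun n hn => ?_
    rw [Finset.mem_filter] at hn
    refine ⟨?_, fun hh => hn.2 (has_of_G hh)⟩
    have := (Finset.mem_Icc.1 hn.1).2
    omega
  have h3 := hN0 (N + 1) (by have := le_trans (le_max_left N0 1) hN; omega)
  have h4 : (((Finset.Icc 1 N).filter (fun n => ¬ HasHomogeneous 4 n)).card : ℝ) ≤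
      ε / 4 * ((N + 1 : ℕ) : ℝ) := le_trans (by exact_mod_cast h2) h3
  have h5 : (((Finset.Icc 1 N).filter (fun n => HasHomogeneous 4 n)).card : ℝ) +
      (((Finset.Icc 1 N).filter (fun n => ¬ HasHomogeneous 4 n)).card : ℝ) = N := by
    exact_mod_cast h1
  have h6 : ((N + 1 : ℕ) : ℝ) ≤ 2 * N := by
    have : (1 : ℝ) ≤ N := by exact_mod_cast hN1
    push_cast
    linarith
  have h7 : (0 : ℝ) ≤ (((Finset.Icc 1 N).filter (fun n => ¬ HasHomogeneous 4 n)).card : ℝ) :=
    Nat.cast_nonneg _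
  rw [Real.dist_eq, abs_lt]
  have h8 : ε / 4 * ((N + 1 : ℕ) : ℝ) ≤ ε / 2 * N := by nlinarith
  constructor
  · rw [lt_sub_iff_add_lt, lt_div_iff₀ hNr]
    nlinarith
  · rw [sub_lt_iff_lt_add, div_lt_iff₀ hNr]
    nlinarith

end Pool.Agent.H173L
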