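import Pool.Agent.H173L.Final

/-!
# Latin squares of order `n`, their intercalates, homogeneity
-/

set_option autoImplicit false

namespace Pool.Agent.H173L

/-- `L` is a latin square of order `n` -/
def IsLatinSquare {n : ℕ} (L : Fin n → Fin n → Fin n) : Prop :=
  (∀ r, Function.Bijective (L r)) ∧ ∀ c, Function.Bijective fun r => L r c

/-- the intercalates of `L`, as sets of four cells -/
def intercalates {n : ℕ} (L : Fin n → Fin n → Fin n) : Set (Set (Fin n × Fin n)) :=
  {S | ∃ r₁ r₂ c₁ c₂, r₁ ≠ r₂ ∧ c₁ ≠ c₂ ∧ L r₁ c₁ = L r₂ c₂ ∧ L r₁ c₂ = L r₂ c₁ ∧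
    S = {(r₁, c₁), (r₁, c₂), (r₂, c₁), (r₂, c₂)}}

/-- every cell of `L` lies in exactly `h` intercalates -/
def IsHomogeneous (h : ℕ) {n : ℕ} (L : Fin n → Fin n → Fin n) : Prop :=
  ∀ x : Fin n × Fin n, {S | S ∈ intercalates L ∧ x ∈ S}.ncard = h

/-- there is an `h`-homogeneous latin square of order `n` -/
def HasHomogeneous (h n : ℕ) : Prop :=
  ∃ L : Fin n → Fin n → Fin n, IsLatinSquare L ∧ IsHomogeneous h L

open scoped Classical in
theorem homog_of_hom4 {n : ℕ} {L : Fin n → Fin n → Fin n} (h : IsHom4 (Fin n) L) :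
    IsHomogeneous 4 L := by
  rintro ⟨r, c⟩
  have hset : {S | S ∈ intercalates L ∧ (r, c) ∈ S} =
      (fun p : Fin n × Fin n => ({(r, c), (r, p.2), (p.1, c), (p.1, p.2)} :
        Set (Fin n × Fin n))) ''
        (((Finset.univ : Finset (Fin n × Fin n)).filter
          (fun p => Quad L r c p.1 p.2) : Finset (Fin n × Fin n)) : Set (Fin n × Fin n)) := by
    ext S
    constructor
    · rintro ⟨⟨r1, r2, c1, c2, h1, h2, h3, h4, hS⟩, hx⟩
      rw [hS] at hx
      simp only [Set.mem_insert_iff, Set.mem_singleton_iff, Prod.mk.injEq] at hx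
      have hq : Quad L r1 c1 r2 c2 := ⟨h1, h2, h3, h4⟩
      rcases hx with ⟨rfl, rfl⟩ | ⟨rfl, rfl⟩ | ⟨rfl, rfl⟩ | ⟨rfl, rfl⟩
      · refine ⟨(r2, c2), by simpa using hq, ?_⟩
        rw [hS]
      · refine ⟨(r2, c1), by simpa using hq.col, ?_⟩
        rw [hS]
        ext x
        simp only [Set.mem_insert_iff, Set.mem_singleton_iff]
        tauto
      · refine ⟨(r1, c2), by simpa using hq.row, ?_⟩
        rw [hS]
        ext x
        simp only [Set.mem_insert_iff, Set.mem_singleton_iff]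
        tauto
      · refine ⟨(r1, c1), by simpa using hq.swap, ?_⟩
        rw [hS]
        ext x
        simp only [Set.mem_insert_iff, Set.mem_singleton_iff]
        tauto
    · rintro ⟨p, hp, rfl⟩
      have hq : Quad L r c p.1 p.2 := by simpa using hp
      exact ⟨⟨r, p.1, c, p.2, hq.1, hq.2.1, hq.2.2.1, hq.2.2.2, rfl⟩, by simp⟩
  rw [hset, Set.InjOn.ncard_image, Set.ncard_coe_finset]
  · exact h.2 r c
  · intro p hp q hq' hpq
    have hq1 : Quad L r c p.1 p.2 := by simpa using hp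
    have hmem : (p.1, p.2) ∈ ({(r, c), (r, q.2), (q.1, c), (q.1, q.2)} :
        Set (Fin n × Fin n)) := by
      have h1 : (p.1, p.2) ∈ ({(r, c), (r, p.2), (p.1, c), (p.1, p.2)} :
        Set (Fin n × Fin n)) := by simp
      have h2 : ({(r, c), (r, p.2), (p.1, c), (p.1, p.2)} : Set (Fin n × Fin n)) =
        {(r, c), (r, q.2), (q.1, c), (q.1, q.2)} := hpq
      rw [h2] at h1
      exact h1
    simp only [Set.mem_insert_iff, Set.mem_singleton_iff, Prod.mk.injEq] at hmem
    rcases hmem with h1 | h1 | h1 | h1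
    · exact absurd h1.1.symm hq1.1
    · exact absurd h1.1.symm hq1.1
    · exact absurd h1.2.symm hq1.2.1
    · exact Prod.ext h1.1 h1.2

open scoped Classical in
theorem card_le_cnt (E : Set ℕ) (s : Finset ℕ) (N : ℕ) (hs : ∀ n ∈ s, n < N ∧ n ∈ E) :
    s.card ≤ cnt E N := by
  unfold cnt
  apply Finset.card_le_card
  intro n hn
  rw [Finset.mem_filter, Finset.mem_range]
  exact hs n hn

theorem has_of_G {n : ℕ} (h : n ∈ G) : HasHomogeneous 4 n := by
  obtain ⟨X, _, L, hX, hL⟩ := h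
  have e : X ≃ Fin n := Fintype.equivFinOfCardEq hX
  have h1 := hom_conj e hL
  refine ⟨conj e L, ⟨fun r => ?_, fun c => ?_⟩, homog_of_hom4 h1⟩
  · exact Finite.injective_iff_bijective.1 (h1.1.1 r)
  · exact Finite.injective_iff_bijective.1 (h1.1.2 c)

end Pool.Agent.H173L
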