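import Pool.Agent.H173L.Base2
import Pool.Agent.H173L.Exact
import Pool.Agent.H173L.Faithful

/-!
# All large orders
-/

set_option autoImplicit false

namespace Pool.Agent.H173L

open Finset
open scoped Classical

theorem not_null_ap (a d : ℕ) (hd : 0 < d) : ¬ Null {n | ∃ j, n = a + d * j} := by
  intro h
  have hdr : (0 : ℝ) < d := by exact_mod_cast hd
  obtain ⟨N0, hN0⟩ := h (1 / (2 * d)) (by positivity)
  have h1 := hN0 (a + d * (a + 1 + N0)) (by nlinarith)
  have h2 : a + 1 + N0 ≤ cnt {n | ∃ j, n = a + d * j} (a + d * (a + 1 + N0)) := by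
    have h3 := card_le_cnt {n | ∃ j, n = a + d * j}
      ((Finset.range (a + 1 + N0)).image (fun j => a + d * j)) (a + d * (a + 1 + N0)) (by
        intro n hn
        rw [Finset.mem_image] at hn
        obtain ⟨j, hj, rfl⟩ := hn
        rw [Finset.mem_range] at hj
        refine ⟨?_, ⟨j, rfl⟩⟩
        have := Nat.mul_lt_mul_of_pos_left hj hd
        omega)
    rw [Finset.card_image_of_injective, Finset.card_range] at h3
    · exact h3
    · intro x y hxy
      simp only at hxy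
      exact Nat.eq_of_mul_eq_mul_left hd (by omega)
  have h3 : ((a + 1 + N0 : ℕ) : ℝ) ≤ 1 / (2 * d) * ((a + d * (a + 1 + N0) : ℕ) : ℝ) :=
    le_trans (by exact_mod_cast h2) h1
  rw [one_div, inv_mul_eq_div, le_div_iff₀ (by positivity)] at h3
  push_cast at h3
  have ha : (0 : ℝ) ≤ a := Nat.cast_nonneg a
  have hn : (0 : ℝ) ≤ N0 := Nat.cast_nonneg N0
  have hd1 : (1 : ℝ) ≤ d := by exact_mod_cast hd
  nlinarith [mul_nonneg ha (by linarith : (0 : ℝ) ≤ d - 1), mul_nonneg hdr.le hn]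

theorem cnt_shift {A B : Set ℕ} {b : ℕ} (h : ∀ n ∈ A, b ≤ n ∧ n - b ∈ B) (N : ℕ) :
    cnt A N ≤ cnt B N := by
  unfold cnt
  refine Finset.card_le_card_of_injOn (fun n => n - b) ?_ ?_
  · intro n hn
    have hn' := Finset.mem_filter.1 hn
    have h1 := Finset.mem_range.1 hn'.1
    exact Finset.mem_coe.2 (Finset.mem_filter.2
      ⟨Finset.mem_range.2 (lt_of_le_of_lt (Nat.sub_le n b) h1), (h n hn'.2).2⟩)
  · intro x hx y hy hxy
    have hx' := (h x (Finset.mem_filter.1 hx).2).1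
    have hy' := (h y (Finset.mem_filter.1 hy).2).1
    simp only at hxy
    omega

theorem Null.shift {B : Set ℕ} (h : Null B) (b : ℕ) : Null {n | b ≤ n ∧ n - b ∈ B} := by
  intro ε hε
  obtain ⟨N0, hN0⟩ := h ε hε
  refine ⟨N0, fun N hN => le_trans ?_ (hN0 N hN)⟩
  exact_mod_cast cnt_shift (b := b) (fun n hn => hn) N

theorem exists_small : ∃ b : ℕ, b % 30 = 1 ∧ 31 ≤ b ∧ ∃ C0 : Fin b → Fin b → Fin b,
    IsHom4 (Fin b) C0 := by
  by_contra hcon
  refine not_null_ap 31 30 (by norm_num) (null_all.mono ?_)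
  rintro n ⟨j, rfl⟩ hn
  apply hcon
  obtain ⟨X, _, L, hX, hL⟩ := hn
  exact ⟨31 + 30 * j, by omega, by omega, conj (Fintype.equivFinOfCardEq hX) L, hom_conj _ hL⟩

theorem find_k {b : ℕ} (hb : 0 < b) {C0 : Fin b → Fin b → Fin b} {N1 : ℕ} (hN1 : b < N1)
    (hcop : Nat.Coprime N1 b) (hnull : Null (OddMul N1 \ GC C0)) :
    ∃ k, 0 < k ∧ k + b ∈ GC C0 ∧ k ∈ G ∧ Nat.Coprime k b ∧ (k + b) % 2 = N1 % 2 := by
  have h1 := not_null_ap N1 (2 * N1 * b) (Nat.mul_pos (by omega) hb)
  have h2 : Null ((OddMul N1 \ GC C0) ∪ {n | b ≤ n ∧ n - b ∈ {n | n ∉ G}}) :=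
    hnull.union (null_all.shift b)
  by_contra hcon
  apply h1
  refine h2.mono ?_
  rintro n ⟨j, rfl⟩
  have h3 : N1 + 2 * N1 * b * j = N1 * (1 + 2 * (b * j)) := by ring
  by_cases hG : N1 + 2 * N1 * b * j ∈ GC C0
  · right
    have hle : b ≤ N1 + 2 * N1 * b * j := by omega
    refine ⟨hle, fun hk => hcon ?_⟩
    refine ⟨N1 + 2 * N1 * b * j - b, by omega, ?_, hk, ?_, ?_⟩
    · rw [Nat.sub_add_cancel hle]
      exact hG
    · have h4 : Nat.Coprime (N1 + 2 * N1 * b * j - b + b) b := by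
        rw [Nat.sub_add_cancel hle, h3]
        refine Nat.Coprime.mul_left hcop ?_
        have h5 : 1 + 2 * (b * j) = 1 + b * (2 * j) := by ring
        rw [h5]
        exact (Nat.coprime_add_mul_left_left 1 b (2 * j)).2 (Nat.coprime_one_left b)
      exact (Nat.coprime_add_self_left).1 h4
    · rw [Nat.sub_add_cancel hle]
      have h5 : 2 * N1 * b * j = 2 * (N1 * b * j) := by ring
      omega
  · left
    refine ⟨⟨1 + 2 * (b * j), ⟨b * j, by ring⟩, h3⟩, hG⟩

theorem large_parity {b : ℕ} (hb : b % 30 = 1) {C0 : Fin b → Fin b → Fin b}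
    (hC0 : IsHom4 (Fin b) C0) {k : ℕ} (hk0 : 0 < k) (hkN : k + b ∈ GC C0) (hk : k ∈ G)
    (hcop : Nat.Coprime k b) : ∃ N0, ∀ n, N0 ≤ n → Odd (n + k) → n ∈ G := by
  refine ⟨60 * k * b + k * (3 * 4 ^ (60 * k) + 60), fun n hn hodd => ?_⟩
  have hq : NeZero (30 * k) := ⟨by omega⟩
  have hb30 : Nat.Coprime b 30 := by
    rw [Nat.Coprime, Nat.gcd_comm, Nat.gcd_rec, hb]
    rfl
  have hbq : Nat.Coprime b (30 * k) := Nat.Coprime.mul_right hb30 hcop.symm
  obtain ⟨c, hc⟩ := ((ZMod.isUnit_iff_coprime b (30 * k)).2 hbq).exists_right_inv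
  set t : ℕ := (((n + 29 * k : ℕ) : ZMod (30 * k)) * c).val + 30 * k with htd
  have ht1 : t < 60 * k := by
    have := ZMod.val_lt (((n + 29 * k : ℕ) : ZMod (30 * k)) * c)
    omega
  have ht2 : 30 * k ≤ t := by omega
  have hbt : ((b * t : ℕ) : ZMod (30 * k)) = ((n + 29 * k : ℕ) : ZMod (30 * k)) := by
    rw [Nat.cast_mul, htd, Nat.cast_add, ZMod.natCast_self, add_zero, ZMod.natCast_zmod_val]
    calc (b : ZMod (30 * k)) * (((n + 29 * k : ℕ) : ZMod (30 * k)) * c)
        = ((b : ZMod (30 * k)) * c) * ((n + 29 * k : ℕ) : ZMod (30 * k)) := by ring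
      _ = _ := by rw [hc, one_mul]
  have hle : b * t ≤ 60 * k * b := by
    have := Nat.mul_le_mul_left b ht1.le
    calc b * t ≤ b * (60 * k) := this
      _ = 60 * k * b := by ring
  have hmod : b * t ≡ n + 29 * k [MOD 30 * k] := (ZMod.natCast_eq_natCast_iff _ _ _).1 hbt
  have hle2 : b * t ≤ n + 29 * k := by omega
  obtain ⟨q, hqq⟩ := (Nat.modEq_iff_dvd' hle2).1 hmod
  have hqe : n + 29 * k = b * t + 30 * k * q := by omega
  have hq1 : 3 * 4 ^ (60 * k) + 60 < 30 * q := by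
    have h1 : k * (3 * 4 ^ (60 * k) + 60) < k * (30 * q) := by
      have h2 : k * (30 * q) = 30 * k * q := by ring
      rw [h2]
      omega
    exact Nat.lt_of_mul_lt_mul_left h1
  obtain ⟨q', rfl⟩ : ∃ q', q = q' + 1 := ⟨q - 1, by omega⟩
  have hne : n = k * (30 * q' + 1) + b * t := by
    have h1 : 30 * k * (q' + 1) = k * (30 * q') + 30 * k := by ring
    have h2 : k * (30 * q' + 1) = k * (30 * q') + k := by ring
    omega
  have hbodd : b % 2 = 1 := by omega
  have htodd : Odd t := by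
    have h1 : Odd (n + 29 * k) := by
      rw [Nat.odd_iff] at hodd ⊢
      omega
    have h2 : Odd (b * t) := by
      have h3 : 30 * k * (q' + 1) = 2 * (15 * k * (q' + 1)) := by ring
      rw [hqe, h3, Nat.odd_iff] at h1
      rw [Nat.odd_iff]
      omega
    exact (Nat.odd_mul.1 h2).2
  have hm : Nat.Coprime (30 * q' + 1) 30 := by
    rw [add_comm]
    exact (Nat.coprime_add_mul_left_left 1 30 q').2 (Nat.coprime_one_left 30)
  have hpow : 4 ^ t ≤ 4 ^ (60 * k) := Nat.pow_le_pow_right (by norm_num) ht1.le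
  rw [hne]
  exact exact_G hC0 hkN hk htodd (by omega) hm (by omega)

theorem all_large : ∃ N0, ∀ n, N0 ≤ n → n ∈ G := by
  obtain ⟨b, hb, hb31, C0, hC0⟩ := exists_small
  have hbodd : Odd (b + 2) := by
    rw [Nat.odd_iff]
    omega
  have : NeZero (b + 2) := ⟨by omega⟩
  have hlat : Latin (comp (b + 2) b sq16 sq17 C0) :=
    comp_latin hbodd (by omega) latin16 latin17 hC0.1 sq17_none
  have hcov : SubCover C0 (comp (b + 2) b sq16 sq17 C0) (fun u => Sum.inr u) :=
    comp_cover_sub (by omega) cover16 hcover17 (hom_subCover hC0)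
  have hcard : Fintype.card (Pt (b + 2) b (Fin 16)) = 17 * b + 32 := by
    rw [Fintype.card_sum, Fintype.card_prod, ZMod.card, Fintype.card_fin, Fintype.card_fin]
    ring
  have hn1 : Null (OddMul (17 * b + 32) \ GC C0) := by
    rw [← hcard]
    exact null_of_subCover (by rw [hcard]; omega) hlat hcov Sum.inr_injective (fun u v => rfl)
  have hcard2 : Fintype.card (Pt (b + 2) b (Fin 16) × ZMod 2) = 2 * (17 * b + 32) := by
    rw [Fintype.card_prod, hcard, ZMod.card]
    ring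
  have hn2 : Null (OddMul (2 * (17 * b + 32)) \ GC C0) := by
    rw [← hcard2]
    refine null_of_subCover (by rw [hcard2]; omega) (prodL_latin hlat (latin_cyc 2))
      (hcov.prod (A := cyc 2) 0) ?_ ?_
    · intro u v huv
      exact Sum.inr_injective (Prod.mk.inj huv).1
    · intro u v
      rfl
  have hbo : Odd b := by
    rw [Nat.odd_iff]
    omega
  have hc32 : Nat.Coprime 32 b := by
    have : Nat.Coprime (2 ^ 5) b := Nat.Coprime.pow_left 5 (Nat.coprime_two_left.2 hbo)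
    simpa using this
  have hc1 : Nat.Coprime (17 * b + 32) b := by
    rw [add_comm]
    exact (Nat.coprime_add_mul_right_left 32 b 17).2 hc32
  have hc2 : Nat.Coprime (2 * (17 * b + 32)) b :=
    Nat.Coprime.mul_left (Nat.coprime_two_left.2 hbo) hc1
  obtain ⟨k1, g1, g2, g3, g4, g5⟩ := find_k (by omega) (by omega) hc1 hn1
  obtain ⟨k2, f1, f2, f3, f4, f5⟩ := find_k (by omega) (by omega) hc2 hn2
  obtain ⟨M1, hM1⟩ := large_parity hb hC0 g1 g2 g3 g4
  obtain ⟨M2, hM2⟩ := large_parity hb hC0 f1 f2 f3 f4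
  refine ⟨max M1 M2, fun n hn => ?_⟩
  by_cases hn2 : n % 2 = 1
  · refine hM1 n (le_trans (le_max_left _ _) hn) ?_
    rw [Nat.odd_iff]
    omega
  · refine hM2 n (le_trans (le_max_right _ _) hn) ?_
    rw [Nat.odd_iff]
    omega

end Pool.Agent.H173L
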